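import Mathlib

set_option autoImplicit false

/-! # Project AK57: arithmetic Kakeya for difference sets with bounded alphabets (statements) -/

open Finset

namespace Pool.Agent.Y57.AK

/-- `f (p + x)` -/
noncomputable def sh {ι : Type} (p : ι → ℚ) (f : MvPolynomial ι ℚ) : MvPolynomial ι ℚ :=
  MvPolynomial.aeval (fun i => MvPolynomial.X i + MvPolynomial.C (p i)) f

/-- `f` vanishes to order `b` at `p` -/
def Van {ι : Type} (b : ℕ) (p : ι → ℚ) (f : MvPolynomial ι ℚ) : Prop :=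
  ∀ β : ι →₀ ℕ, β.degree < b → (sh p f).coeff β = 0

/-- multi-indices of degree `< b` -/
def mon (ι : Type) [Fintype ι] [DecidableEq ι] (b : ℕ) : Finset (ι →₀ ℕ) :=
  (range b).biUnion fun h => (univ : Finset ι).finsuppAntidiag h

/-- a polynomial of degree `≤ m` vanishing to order `l` at the points `d + s v`, `s ∈ J`, of a line
vanishes to order `b` at `d` -/
def S_LINE : Prop := ∀ (ι : Type) [Fintype ι] [DecidableEq ι] (J : Finset ℚ) (d v : ι → ℚ)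
  (m l b : ℕ) (f : MvPolynomial ι ℚ), f.totalDegree ≤ m →
  (∀ s ∈ J, Van l (fun i => d i + s * v i) f) →
  m + (J.card - 1) * (b - 1) < J.card * l → Van b d f

/-- Hermite interpolation on a grid -/
def S_INT : Prop := ∀ (ι : Type) [Fintype ι] [DecidableEq ι] (S : ι → Finset ℚ) (q b : ℕ),
  (∀ i, (S i).card ≤ q) → ∀ u : (ι → ℚ) → (ι →₀ ℕ) → ℚ,
  ∃ f : MvPolynomial ι ℚ, f.totalDegree ≤ (q - 1) * Fintype.card ι + q * (b - 1) ∧
    ∀ p : ι → ℚ, (∀ i, p i ∈ S i) → ∀ β : ι →₀ ℕ, β.degree < b → (sh p f).coeff β = u p β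

def S_CARD : Prop := ∀ (ι : Type) [Fintype ι] [DecidableEq ι] (b : ℕ), 1 ≤ b →
  (mon ι b).card = (Fintype.card ι + b - 1).choose (Fintype.card ι) ∧
    ∀ β : ι →₀ ℕ, β ∈ mon ι b ↔ β.degree < b

def S_DIM : Prop := ∀ (ι : Type) [Fintype ι] [DecidableEq ι] (S : ι → Finset ℚ) (q b l : ℕ)
  (D : Finset (ι → ℚ)) (v : (ι → ℚ) → (ι → ℚ)) (J : Finset ℚ),
  (∀ i, (S i).card ≤ q) → (∀ d ∈ D, ∀ i, d i ∈ S i) → 1 ≤ b → 1 ≤ l →
  ((q - 1) * Fintype.card ι + q * (b - 1)) + (J.card - 1) * (b - 1) < J.card * l →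
  D.card * (Fintype.card ι + b - 1).choose (Fintype.card ι) ≤
    (∑ s ∈ J, (D.image fun d i => d i + s * v d i).card) *
      (Fintype.card ι + l - 1).choose (Fintype.card ι)

def S_LIM : Prop := ∀ (ι : Type) [Fintype ι] [DecidableEq ι] (S : ι → Finset ℚ) (q : ℕ)
  (D : Finset (ι → ℚ)) (v : (ι → ℚ) → (ι → ℚ)) (J : Finset ℚ),
  (∀ i, (S i).card ≤ q) → (∀ d ∈ D, ∀ i, d i ∈ S i) → 1 ≤ q → J.Nonempty →
  D.card * J.card ^ Fintype.card ι ≤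
    (∑ s ∈ J, (D.image fun d i => d i + s * v d i).card) *
      (J.card + q - 1) ^ Fintype.card ι

def S_TEN : Prop := ∀ (ι : Type) [Fintype ι] [DecidableEq ι] (S : ι → Finset ℚ) (q W : ℕ)
  (D : Finset (ι → ℚ)) (v : (ι → ℚ) → (ι → ℚ)) (J : Finset ℚ),
  (∀ i, (S i).card ≤ q) → (∀ d ∈ D, ∀ i, d i ∈ S i) → 1 ≤ q → J.Nonempty →
  (∀ s ∈ J, (D.image fun d i => d i + s * v d i).card ≤ W) →
  D.card * J.card ^ Fintype.card ι ≤ W * (J.card + q - 1) ^ Fintype.card ι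

/-- the lattice version, slopes `S` and `∞` -/
def S_PROJ : Prop := ∀ (n q : ℕ) (S : Finset ℚ), 1 ≤ q → (-1 : ℚ) ∉ S →
  ∀ A : Finset ((Fin n → ℤ) × (Fin n → ℤ)),
  (∀ i, (A.image fun p => p.1 i - p.2 i).card ≤ q) →
  (A.image fun p => p.1 - p.2).card * (S.card + 1) ^ n ≤
    (max (A.image Prod.snd).card
      (S.sup fun r => (A.image fun p => fun i => (p.1 i : ℚ) + r * (p.2 i : ℚ)).card)) *
      (S.card + q) ^ n

/-- translating so that no carries occur -/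
def S_CARRY : Prop := ∀ (M H n k : ℕ) (D : Finset ℤ) (R : ℤ → ℕ → ℕ) (y : ℤ → ℤ), k * H < M →
  (∀ d ∈ D, (∀ i < n, R d i ≤ H) ∧ d = ∑ i ∈ range n, (R d i : ℤ) * (M : ℤ) ^ i) →
  ∃ D' ⊆ D, ∃ Y : ℤ → Fin n → ℤ, D.card * (M - k * H) ^ n ≤ D'.card * M ^ n ∧
    ∀ j ≤ k, (D'.image fun d => fun i : Fin n => Y d i + (j : ℤ) * (R d i : ℤ)).card ≤
      (D.image fun d => y d + (j : ℤ) * d).card

/-- the version for integers -/
def S_INTG : Prop := ∀ (M H n k q W : ℕ) (Rs : ℕ → Finset ℕ) (D : Finset ℤ) (y : ℤ → ℤ),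
  k * H < M → 1 ≤ q → (∀ i, (Rs i).card ≤ q ∧ ∀ r ∈ Rs i, r ≤ H) →
  (∀ d ∈ D, ∃ r : ℕ → ℕ, (∀ i < n, r i ∈ Rs i) ∧
    d = ∑ i ∈ range n, (r i : ℤ) * (M : ℤ) ^ i) →
  (∀ j ≤ k, (D.image fun d => y d + (j : ℤ) * d).card ≤ W) →
  D.card * ((M - k * H) * (k + 1)) ^ n ≤ W * (M * (k + q)) ^ n

end Pool.Agent.Y57.AK
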