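import Mathlib
import Pool.Agent.Y57.AK.Stm

set_option autoImplicit false

/-! # Project AK57: differences in progressions of large dimension (statements) -/

open Finset

namespace Pool.Agent.Y57.AK

/-- no nontrivial relation with coefficients of absolute value at most `L` -/
def Dissoc {n : ℕ} (L : ℕ) (g : Fin n → ℤ) : Prop :=
  ∀ c : Fin n → ℤ, (∀ i, |c i| ≤ (L : ℤ)) → ∑ i, c i * g i = 0 → c = 0

/-- partition into translates of a proper progression -/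
def S_GAP : Prop := ∀ (n k H L : ℕ) (g : Fin n → ℤ) (D : Finset ℤ) (R : ℤ → Fin n → ℕ)
  (y : ℤ → ℤ), k * H < L → Dissoc (L + k * H) g →
  (∀ d ∈ D, (∀ i, R d i ≤ H) ∧ d = ∑ i, (R d i : ℤ) * g i) →
  ∃ D' ⊆ D, ∃ Y : ℤ → Fin n → ℤ, D.card * (L - k * H) ^ n ≤ D'.card * (L + k * H) ^ n ∧
    ∀ j ≤ k, (D'.image fun d => fun i : Fin n => Y d i + (j : ℤ) * (R d i : ℤ)).card ≤
      (D.image fun d => y d + (j : ℤ) * d).card

/-- the version for integers -/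
def S_INTG2 : Prop := ∀ (n k H L q W : ℕ) (g : Fin n → ℤ) (Rs : Fin n → Finset ℕ) (D : Finset ℤ)
  (y : ℤ → ℤ), k * H < L → Dissoc (L + k * H) g → 1 ≤ q →
  (∀ i, (Rs i).card ≤ q ∧ ∀ r ∈ Rs i, r ≤ H) →
  (∀ d ∈ D, ∃ r : Fin n → ℕ, (∀ i, r i ∈ Rs i) ∧ d = ∑ i, (r i : ℤ) * g i) →
  (∀ j ≤ k, (D.image fun d => y d + (j : ℤ) * d).card ≤ W) →
  D.card * ((L - k * H) * (k + 1)) ^ n ≤ W * ((L + k * H) * (k + q)) ^ n

end Pool.Agent.Y57.AK
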