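import Mathlib
import Pool.Agent.Y57.AK.Stm2

set_option autoImplicit false

/-! # Project AK57: difference sets which are rich for polynomials (statements) -/

open Finset

namespace Pool.Agent.Y57.AK

/-- every function on `D` is the restriction of a polynomial of degree `≤ w` -/
def Interp {ι : Type} (w : ℕ) (D : Finset (ι → ℚ)) : Prop :=
  ∀ u : (ι → ℚ) → ℚ, ∃ f : MvPolynomial ι ℚ, f.totalDegree ≤ w ∧
    ∀ d ∈ D, MvPolynomial.eval d f = u d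

def S_DIM1 : Prop := ∀ (ι : Type) [Fintype ι] [DecidableEq ι] (w l : ℕ)
  (D : Finset (ι → ℚ)) (v : (ι → ℚ) → (ι → ℚ)) (J : Finset ℚ),
  Interp w D → 1 ≤ l → w < J.card * l →
  D.card ≤ (∑ s ∈ J, (D.image fun d i => d i + s * v d i).card) *
      (Fintype.card ι + l - 1).choose (Fintype.card ι)

def S_TEN1 : Prop := ∀ (ι : Type) [Fintype ι] [DecidableEq ι] (w W : ℕ)
  (D : Finset (ι → ℚ)) (v : (ι → ℚ) → (ι → ℚ)) (J : Finset ℚ),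
  Interp w D → J.Nonempty → (∀ s ∈ J, (D.image fun d i => d i + s * v d i).card ≤ W) →
  ∀ x : ℝ, 0 < x → x ≤ 1 →
  (D.card : ℝ) ^ J.card * x ^ w ≤ (W : ℝ) ^ J.card * (1 + x) ^ (J.card * Fintype.card ι + w)

/-- the lattice version, slopes `S` and `∞` -/
def S_PROJ1 : Prop := ∀ (n w : ℕ) (S : Finset ℚ), (-1 : ℚ) ∉ S →
  ∀ A : Finset ((Fin n → ℤ) × (Fin n → ℤ)),
  Interp w (A.image fun p => fun i => ((p.1 i : ℚ) - (p.2 i : ℚ))) →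
  ∀ x : ℝ, 0 < x → x ≤ 1 →
  ((A.image fun p => p.1 - p.2).card : ℝ) ^ (S.card + 1) * x ^ w ≤
    ((max (A.image Prod.snd).card
      (S.sup fun r => (A.image fun p => fun i => (p.1 i : ℚ) + r * (p.2 i : ℚ)).card) : ℕ) : ℝ)
        ^ (S.card + 1) * (1 + x) ^ ((S.card + 1) * n + w)

/-- partition into translates of a proper progression -/
def S_GAP1 : Prop := ∀ (n k L : ℕ) (τ : ℝ) (g : Fin n → ℤ) (D : Finset ℤ)
  (R : ℤ → Fin n → ℕ) (y : ℤ → ℤ), (∀ d ∈ D, ∀ i, k * R d i < L) → Dissoc (2 * L) g →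
  (∀ d ∈ D, d = ∑ i, (R d i : ℤ) * g i) →
  (∀ d ∈ D, τ * ∏ i, ((L : ℝ) + k * R d i) ≤ ∏ i, ((L : ℝ) - k * R d i)) →
  ∃ D' ⊆ D, ∃ Y : ℤ → Fin n → ℤ, τ * D.card ≤ D'.card ∧
    ∀ j ≤ k, (D'.image fun d => fun i : Fin n => Y d i + (j : ℤ) * (R d i : ℤ)).card ≤
      (D.image fun d => y d + (j : ℤ) * d).card

/-- the version for integers -/
def S_INTG3 : Prop := ∀ (n k L w W : ℕ) (τ : ℝ) (g : Fin n → ℤ) (D : Finset ℤ)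
  (R : ℤ → Fin n → ℕ) (y : ℤ → ℤ), 0 ≤ τ → (∀ d ∈ D, ∀ i, k * R d i < L) → Dissoc (2 * L) g →
  (∀ d ∈ D, d = ∑ i, (R d i : ℤ) * g i) →
  (∀ d ∈ D, τ * ∏ i, ((L : ℝ) + k * R d i) ≤ ∏ i, ((L : ℝ) - k * R d i)) →
  Interp w (D.image fun d => fun i => (R d i : ℚ)) →
  (∀ j ≤ k, (D.image fun d => y d + (j : ℤ) * d).card ≤ W) →
  ∀ x : ℝ, 0 < x → x ≤ 1 →
  (τ * D.card) ^ (k + 1) * x ^ w ≤ (W : ℝ) ^ (k + 1) * (1 + x) ^ ((k + 1) * n + w)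

/-- simplices -/
def S_SIMP : Prop := ∀ (ι : Type) [Fintype ι] [DecidableEq ι] (w : ℕ) (D : Finset (ι → ℚ)),
  (∀ d ∈ D, ∃ r : ι → ℕ, ∑ i, r i ≤ w ∧ d = fun i => (r i : ℚ)) → Interp w D

/-- grids -/
def S_GRID : Prop := ∀ (ι : Type) [Fintype ι] [DecidableEq ι] (S : ι → Finset ℚ) (q : ℕ)
  (D : Finset (ι → ℚ)), (∀ i, (S i).card ≤ q) → (∀ d ∈ D, ∀ i, d i ∈ S i) →
  Interp ((q - 1) * Fintype.card ι) D

/-- choice of the parameters -/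
def S_EPS : Prop := ∀ (κ : ℕ) (c δ : ℝ), 0 < c → 0 < δ → ∃ K : ℕ, ∀ k : ℕ, K ≤ k →
  ∀ n w : ℕ, w ≤ κ * n → ∀ a B : ℝ, 1 ≤ a → 0 ≤ B → (((n + w).choose w : ℕ) : ℝ) ^ c ≤ a →
  (∀ x : ℝ, 0 < x → x ≤ 1 →
    a ^ (k + 1) * x ^ w ≤ B ^ (k + 1) * (1 + x) ^ ((k + 1) * n + w)) → a ≤ B * a ^ δ

/-- the loss in `S_GAP1` -/
def S_LOSS : Prop := ∀ (n k L : ℕ) (r : Fin n → ℕ), 1 ≤ L → (∀ i, 2 * (k * r i) ≤ L) →
  Real.exp (-(3 * k * (∑ i, (r i : ℝ)) / L)) * ∏ i, ((L : ℝ) + k * r i) ≤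
    ∏ i, ((L : ℝ) - k * r i)

end Pool.Agent.Y57.AK
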