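import Mathlib
import Pool.Agent.Y57.AK.Stm

set_option autoImplicit false

open Finset

namespace Pool.Agent.Y57.AK

lemma mem_mon (ι : Type) [Fintype ι] [DecidableEq ι] (b : ℕ) (β : ι →₀ ℕ) :
    β ∈ mon ι b ↔ β.degree < b := by
  unfold mon
  have hd : β.degree = ∑ i, β i := Finsupp.degree_eq_sum β
  simp only [mem_biUnion, mem_range, mem_finsuppAntidiag]
  constructor
  · rintro ⟨h, hh, h1, _⟩
    have h1' : ∑ i, β i = h := h1
    rw [hd]
    omega
  · intro h
    exact ⟨β.degree, h, by rw [hd], Finset.subset_univ _⟩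

lemma hockey (N b : ℕ) :
    ∑ h ∈ range (b + 1), (N + h - 1).choose h = (N + b).choose N := by
  rcases Nat.eq_zero_or_pos N with rfl | hN
  · rw [Finset.sum_range_succ']
    have h0 : ∑ k ∈ range b, (0 + (k + 1) - 1).choose (k + 1) = 0 :=
      Finset.sum_eq_zero fun k _ => Nat.choose_eq_zero_of_lt (by omega)
    rw [h0]
    simp
  · induction b with
    | zero => simp
    | succ b ih =>
      rw [Finset.sum_range_succ, ih]
      obtain ⟨N', rfl⟩ : ∃ N', N = N' + 1 := ⟨N - 1, by omega⟩
      have e1 : N' + 1 + (b + 1) - 1 = N' + b + 1 := by omega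
      have e2 : (N' + b + 1).choose (b + 1) = (N' + b + 1).choose N' := by
        rw [← Nat.choose_symm_of_eq_add (n := N' + b + 1) (a := N') (b := b + 1) (by omega)]
      rw [e1, e2, show N' + 1 + (b + 1) = (N' + b + 1) + 1 by omega,
        show N' + 1 + b = N' + b + 1 by omega]
      have e3 := Nat.choose_succ_succ (N' + b + 1) N'
      rw [Nat.succ_eq_add_one, Nat.succ_eq_add_one] at e3
      omega

theorem t_CARD : S_CARD := by
  intro ι _ _ b hb
  refine ⟨?_, mem_mon ι b⟩
  unfold mon
  rw [Finset.card_biUnion]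
  · simp only [Finset.card_finsuppAntidiag_nat_eq_choose, Finset.card_univ]
    obtain ⟨c, rfl⟩ : ∃ c, b = c + 1 := ⟨b - 1, by omega⟩
    rw [hockey]
    rfl
  · intro x _ y _ hxy
    rw [Function.onFun, Finset.disjoint_left]
    intro β h1 h2
    rw [mem_finsuppAntidiag] at h1 h2
    exact hxy (h1.1.symm.trans h2.1)

end Pool.Agent.Y57.AK
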