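import Mathlib
import Pool.Agent.Y57.AK.Stm2

set_option autoImplicit false

open Finset

namespace Pool.Agent.Y57.AK

/-- the projection `π_r(A) = {x + r y : (x, y) ∈ A}` -/
def proj (r : ℚ) (A : Finset (ℤ × ℤ)) : Finset ℚ :=
  A.image (fun p : ℤ × ℤ => (p.1 : ℚ) + r * (p.2 : ℚ))

/-- the projection `π_∞(A) = {y : (x, y) ∈ A}` -/
def projInf (A : Finset (ℤ × ℤ)) : Finset ℚ := A.image (fun p : ℤ × ℤ => (p.2 : ℚ))

/-- the largest size of a projection of `A` with slope `∞` or in `S` -/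
def big (S : Finset ℚ) (A : Finset (ℤ × ℤ)) : ℕ :=
  max (projInf A).card (S.sup fun r => (proj r A).card)

/-- `d = ∑ r_i g_i` with `r_i ∈ R_i` -/
def InProg {n : ℕ} (g : Fin n → ℤ) (R : Fin n → Finset ℕ) (d : ℤ) : Prop :=
  ∃ r : Fin n → ℕ, (∀ i, r i ∈ R i) ∧ d = ∑ i, (r i : ℤ) * g i

/-- the slopes `1 / j - 1`, `1 ≤ j ≤ k` -/
def slopes (k : ℕ) : Finset ℚ := (Finset.Icc 1 k).image fun j : ℕ => 1 / (j : ℚ) - 1

lemma neg_one_notMem (k : ℕ) : (-1 : ℚ) ∉ slopes k := by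
  unfold slopes
  rw [mem_image]
  rintro ⟨j, hj, h⟩
  have hj1 : (0 : ℚ) < j := by
    have := (Finset.mem_Icc.1 hj).1
    exact_mod_cast this
  have h2 : (0 : ℚ) < 1 / (j : ℚ) := by positivity
  linarith

lemma transfer (k : ℕ) (A : Finset (ℤ × ℤ)) : ∃ (D : Finset ℤ) (y : ℤ → ℤ),
    D = A.image (fun p => p.1 - p.2) ∧ (proj (-1) A).card = D.card ∧
    ∀ j ≤ k, (D.image fun d => y d + (j : ℤ) * d).card ≤ big (slopes k) A := by
  classical
  set D : Finset ℤ := A.image (fun p => p.1 - p.2) with hD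
  have hcard : (proj (-1) A).card = D.card := by
    have h1 : proj (-1) A = D.image (fun d : ℤ => (d : ℚ)) := by
      unfold proj
      rw [hD, Finset.image_image]
      apply Finset.image_congr
      intro p _
      simp only [Function.comp_apply]
      push_cast
      ring
    rw [h1, Finset.card_image_of_injective _ Int.cast_injective]
  have hch : ∀ d : ℤ, ∃ p : ℤ × ℤ, d ∈ D → p ∈ A ∧ p.1 - p.2 = d := by
    intro d
    by_cases hd : d ∈ D
    · obtain ⟨p, hp, hpd⟩ := Finset.mem_image.1 hd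
      exact ⟨p, fun _ => ⟨hp, hpd⟩⟩
    · exact ⟨0, fun h => absurd h hd⟩
  choose P hP using hch
  refine ⟨D, fun d => (P d).2, hD, hcard, ?_⟩
  · intro j hj
    rcases Nat.eq_zero_or_pos j with rfl | hj0
    · refine le_trans ?_ (le_max_left _ _)
      have h1 : (D.image fun d => (P d).2 + ((0 : ℕ) : ℤ) * d).card =
          ((D.image fun d => (P d).2 + ((0 : ℕ) : ℤ) * d).image (fun z : ℤ => (z : ℚ))).card :=
        (Finset.card_image_of_injective _ Int.cast_injective).symm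
      rw [h1]
      apply Finset.card_le_card
      intro x hx
      obtain ⟨z, hz, rfl⟩ := Finset.mem_image.1 hx
      obtain ⟨d, hd, rfl⟩ := Finset.mem_image.1 hz
      refine Finset.mem_image.2 ⟨P d, (hP d hd).1, ?_⟩
      push_cast
      ring
    · refine le_trans ?_ (le_max_right _ _)
      have hmem : (1 / (j : ℚ) - 1) ∈ slopes k :=
        Finset.mem_image.2 ⟨j, Finset.mem_Icc.2 ⟨hj0, hj⟩, rfl⟩
      refine le_trans ?_ (Finset.le_sup (f := fun r => (proj r A).card) hmem)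
      have hj1 : (j : ℚ) ≠ 0 := by exact_mod_cast hj0.ne'
      have hinj : Function.Injective (fun z : ℤ => (z : ℚ) / (j : ℚ)) := by
        intro a b hab
        have : (a : ℚ) = b := by
          have := congrArg (fun t => t * (j : ℚ)) hab
          simpa [div_mul_cancel₀ _ hj1] using this
        exact_mod_cast this
      have h1 : (D.image fun d => (P d).2 + (j : ℤ) * d).card =
          ((D.image fun d => (P d).2 + (j : ℤ) * d).image
            (fun z : ℤ => (z : ℚ) / (j : ℚ))).card :=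
        (Finset.card_image_of_injective _ hinj).symm
      rw [h1]
      apply Finset.card_le_card
      intro x hx
      obtain ⟨z, hz, rfl⟩ := Finset.mem_image.1 hx
      obtain ⟨d, hd, rfl⟩ := Finset.mem_image.1 hz
      refine Finset.mem_image.2 ⟨P d, (hP d hd).1, ?_⟩
      have h2 : ((P d).1 : ℚ) = d + (P d).2 := by
        have := (hP d hd).2
        have h3 : (P d).1 = d + (P d).2 := by omega
        exact_mod_cast h3
      rw [h2]
      push_cast
      field_simp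
      ring

/-- the quantitative inequality -/
lemma quant2 (hI : S_INTG2) (n k H L q : ℕ) (g : Fin n → ℤ) (Rs : Fin n → Finset ℕ)
    (hkL : k * H < L) (hg : Dissoc (L + k * H) g) (hq : 1 ≤ q)
    (hR : ∀ i, (Rs i).card ≤ q ∧ ∀ r ∈ Rs i, r ≤ H) (A : Finset (ℤ × ℤ))
    (hA : ∀ p ∈ A, InProg g Rs (p.1 - p.2)) :
    (proj (-1) A).card * ((L - k * H) * (k + 1)) ^ n ≤
      big (slopes k) A * ((L + k * H) * (k + q)) ^ n := by
  classical
  obtain ⟨D, y, hD, hcard, hW⟩ := transfer k A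
  rw [hcard]
  refine hI n k H L q (big (slopes k) A) g Rs D y hkL hg hq hR ?_ hW
  intro d hd
  rw [hD] at hd
  obtain ⟨p, hp, rfl⟩ := Finset.mem_image.1 hd
  exact hA p hp

lemma exists_ratio (q : ℕ) (ρ : ℝ) (hρ : 1 < ρ) :
    ∃ k : ℕ, ((k : ℝ) + q) ≤ ρ * ((k : ℝ) + 1) := by
  obtain ⟨k, hk⟩ := exists_nat_gt ((q : ℝ) / (ρ - 1))
  refine ⟨k, ?_⟩
  have h1 : 0 < ρ - 1 := by linarith
  rw [div_lt_iff₀ h1] at hk
  nlinarith

lemma exists_ratio2 (k : ℕ) (ρ : ℝ) (hρ : 1 < ρ) :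
    ∃ Λ : ℕ, k < Λ ∧ ((Λ : ℝ) + k) ≤ ρ * ((Λ : ℝ) - k) := by
  obtain ⟨m, hm⟩ := exists_nat_gt ((2 * k : ℝ) / (ρ - 1))
  refine ⟨m + k + 1, by omega, ?_⟩
  have h1 : 0 < ρ - 1 := by linarith
  rw [div_lt_iff₀ h1] at hm
  push_cast
  nlinarith

lemma fin_real (n : ℕ) (a B T U c ε : ℝ) (hc : 0 < c) (hε : 0 < ε) (hT : 0 < T) (hU : 0 ≤ U)
    (hB0 : 0 ≤ B)
    (hbig : (2 : ℝ) ^ (c * n) ≤ a) (h : a * T ^ n ≤ B * U ^ n)
    (hUT : U ≤ ((2 : ℝ) ^ (c * ε / (2 * (1 + ε))) * (2 : ℝ) ^ (c * ε / (2 * (1 + ε)))) * T) :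
    a ≤ B ^ (1 + ε) := by
  have h1ε : 0 < 1 + ε := by linarith
  set ρ : ℝ := (2 : ℝ) ^ (c * ε / (2 * (1 + ε))) with hρdef
  have ha1 : 1 ≤ a := le_trans (Real.one_le_rpow (by norm_num) (by positivity)) hbig
  have ha0 : 0 < a := by linarith
  have hmain : a ≤ B * (ρ * ρ) ^ n := by
    have h10 : B * U ^ n ≤ B * (ρ * ρ) ^ n * T ^ n := by
      rw [mul_assoc, ← mul_pow]
      apply mul_le_mul_of_nonneg_left _ hB0
      exact pow_le_pow_left₀ hU hUT n
    have h11 := h.trans h10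
    exact le_of_mul_le_mul_right h11 (pow_pos hT n)
  have hρn : (ρ * ρ) ^ n ≤ a ^ (ε / (1 + ε)) := by
    have h12 : (ρ * ρ) ^ n = ((2 : ℝ) ^ (c * n)) ^ (ε / (1 + ε)) := by
      rw [hρdef, ← Real.rpow_add (by norm_num), ← Real.rpow_natCast, ← Real.rpow_mul (by norm_num),
        ← Real.rpow_mul (by norm_num)]
      congr 1
      field_simp
      ring
    rw [h12]
    exact Real.rpow_le_rpow (by positivity) hbig (by positivity)
  have hfin : a ^ (1 / (1 + ε)) ≤ B := by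
    have h13 : a ≤ B * a ^ (ε / (1 + ε)) :=
      hmain.trans (mul_le_mul_of_nonneg_left hρn hB0)
    have h14 : a = a ^ (1 / (1 + ε)) * a ^ (ε / (1 + ε)) := by
      rw [← Real.rpow_add ha0, ← add_div, div_self h1ε.ne', Real.rpow_one]
    rw [h14] at h13
    have h15 : 0 < a ^ (ε / (1 + ε)) := Real.rpow_pos_of_pos ha0 _
    have h16 : (a ^ (1 / (1 + ε)) * a ^ (ε / (1 + ε))) ^ (ε / (1 + ε)) = a ^ (ε / (1 + ε)) := by
      rw [← h14]
    rw [h16] at h13
    exact le_of_mul_le_mul_right h13 h15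
  calc a = (a ^ (1 / (1 + ε))) ^ (1 + ε) := by
        rw [← Real.rpow_mul ha0.le, one_div, inv_mul_cancel₀ h1ε.ne', Real.rpow_one]
    _ ≤ B ^ (1 + ε) := Real.rpow_le_rpow (by positivity) hfin h1ε.le

theorem eps2 (hI : S_INTG2) (q : ℕ) (hq : 1 ≤ q) (c ε : ℝ) (hc : 0 < c) (hε : 0 < ε) :
    ∃ S : Finset ℚ, (-1 : ℚ) ∉ S ∧ ∃ Λ : ℕ, 1 ≤ Λ ∧ ∀ (n H : ℕ) (g : Fin n → ℤ)
      (R : Fin n → Finset ℕ), 1 ≤ H → Dissoc (Λ * H) g →
      (∀ i, (R i).card ≤ q ∧ ∀ r ∈ R i, r ≤ H) →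
      ∀ A : Finset (ℤ × ℤ), (∀ p ∈ A, InProg g R (p.1 - p.2)) →
        (2 : ℝ) ^ (c * n) ≤ (proj (-1) A).card →
        ((proj (-1) A).card : ℝ) ≤ (big S A : ℝ) ^ (1 + ε) := by
  have h1ε : 0 < 1 + ε := by linarith
  set ρ : ℝ := (2 : ℝ) ^ (c * ε / (2 * (1 + ε))) with hρdef
  have hρ : 1 < ρ := Real.one_lt_rpow (by norm_num) (by positivity)
  obtain ⟨k, hk⟩ := exists_ratio q ρ hρ
  obtain ⟨Λ, hkΛ, hΛ⟩ := exists_ratio2 k ρ hρ
  refine ⟨slopes k, neg_one_notMem k, Λ + k, by omega, ?_⟩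
  intro n H g R hH hg hR A hA hbig
  have hkL : k * H < Λ * H := Nat.mul_lt_mul_of_pos_right hkΛ hH
  have hg' : Dissoc (Λ * H + k * H) g := by rwa [← add_mul]
  have hQ := quant2 hI n k H (Λ * H) q g R hkL hg' hq hR A hA
  have hH0 : (0 : ℝ) < H := by exact_mod_cast hH
  have hkΛ' : (k : ℝ) < Λ := by exact_mod_cast hkΛ
  have hQ' : ((proj (-1) A).card : ℝ) *
      ((((Λ : ℝ) - k) * H) * ((k : ℝ) + 1)) ^ n ≤
      (big (slopes k) A : ℝ) * ((((Λ : ℝ) + k) * H) * ((k : ℝ) + q)) ^ n := by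
    have h6 : (((proj (-1) A).card * ((Λ * H - k * H) * (k + 1)) ^ n : ℕ) : ℝ) ≤
        ((big (slopes k) A * ((Λ * H + k * H) * (k + q)) ^ n : ℕ) : ℝ) := by exact_mod_cast hQ
    have h7 : ((Λ * H - k * H : ℕ) : ℝ) = ((Λ : ℝ) - k) * H := by
      rw [Nat.cast_sub hkL.le]
      push_cast
      ring
    have h8 : ((Λ * H + k * H : ℕ) : ℝ) = ((Λ : ℝ) + k) * H := by
      push_cast
      ring
    rw [Nat.cast_mul, Nat.cast_pow, Nat.cast_mul, h7, Nat.cast_mul, Nat.cast_pow, Nat.cast_mul,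
      h8] at h6
    push_cast at h6
    exact h6
  refine fin_real n _ _ _ _ c ε hc hε ?_ (by positivity) (Nat.cast_nonneg _) hbig hQ' ?_
  · have : 0 < (Λ : ℝ) - k := by linarith
    positivity
  · have h9 : 0 < (Λ : ℝ) - k := by linarith
    have hρ0 : 0 < ρ := by linarith
    calc (((Λ : ℝ) + k) * H) * ((k : ℝ) + q)
        ≤ ((ρ * ((Λ : ℝ) - k)) * H) * (ρ * ((k : ℝ) + 1)) := by
          apply mul_le_mul _ hk (by positivity) (by positivity)
          exact mul_le_mul_of_nonneg_right hΛ hH0.le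
      _ = (ρ * ρ) * ((((Λ : ℝ) - k) * H) * ((k : ℝ) + 1)) := by ring

/-- powers of the base -/
lemma dissoc_pow (M L : ℕ) (hL : L < M) : ∀ n : ℕ, Dissoc L (fun i : Fin n => (M : ℤ) ^ (i : ℕ)) := by
  intro n
  induction n with
  | zero =>
    intro c _ _
    exact Subsingleton.elim _ _
  | succ n ih =>
    intro c hc hs
    rw [Fin.sum_univ_succ] at hs
    have h1 : ∑ i : Fin n, c i.succ * (M : ℤ) ^ ((i.succ : Fin (n + 1)) : ℕ) =
        (M : ℤ) * ∑ i : Fin n, c i.succ * (M : ℤ) ^ (i : ℕ) := by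
      rw [Finset.mul_sum]
      refine Finset.sum_congr rfl fun i _ => ?_
      rw [Fin.val_succ, pow_succ]
      ring
    rw [h1] at hs
    have h0 : c 0 * (M : ℤ) ^ (((0 : Fin (n + 1)) : ℕ)) = c 0 := by simp
    rw [h0] at hs
    have hdvd : (M : ℤ) ∣ c 0 := ⟨-∑ i : Fin n, c i.succ * (M : ℤ) ^ (i : ℕ), by linarith⟩
    have hc0 : c 0 = 0 := by
      apply Int.eq_zero_of_abs_lt_dvd hdvd
      have := hc 0
      have h2 : (L : ℤ) < M := by exact_mod_cast hL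
      linarith
    rw [hc0, zero_add] at hs
    have hM0 : (M : ℤ) ≠ 0 := by
      have : 0 < M := by omega
      exact_mod_cast this.ne'
    have hs' : ∑ i : Fin n, c i.succ * (M : ℤ) ^ (i : ℕ) = 0 := by
      rcases mul_eq_zero.1 hs with h | h
      · exact absurd h hM0
      · exact h
    have := ih (fun i => c i.succ) (fun i => hc i.succ) hs'
    funext i
    refine Fin.cases hc0 (fun i => ?_) i
    exact congrFun this i

end Pool.Agent.Y57.AK
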