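import Mathlib
import Pool.Agent.Y57.AK.Stm3
import Pool.Agent.Y57.AK.Fin2

set_option autoImplicit false

open Finset

namespace Pool.Agent.Y57.AK

lemma pow_le_choose' (n w : ℕ) : (n + w) ^ w ≤ w ^ w * (n + w).choose w := by
  have h1 : (n + w).choose w * w.factorial = (n + w).descFactorial w := by
    rw [Nat.descFactorial_eq_factorial_mul_choose, mul_comm]
  have h2 : w.factorial = ∏ i ∈ range w, (w - i) := by
    rw [← Nat.descFactorial_self, Nat.descFactorial_eq_prod_range]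
  have h3 : (n + w) ^ w * ∏ i ∈ range w, (w - i) ≤ w ^ w * ∏ i ∈ range w, (n + w - i) := by
    have e1 : (n + w) ^ w = ∏ _i ∈ range w, (n + w) := by simp
    have e2 : w ^ w = ∏ _i ∈ range w, w := by simp
    rw [e1, e2, ← Finset.prod_mul_distrib, ← Finset.prod_mul_distrib]
    apply Finset.prod_le_prod'
    intro i hi
    have hi' : i < w := Finset.mem_range.1 hi
    obtain ⟨t, rfl⟩ : ∃ t, w = i + t := ⟨w - i, by omega⟩
    have e3 : n + (i + t) - i = n + t := by omega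
    have e4 : i + t - i = t := by omega
    rw [e3, e4]
    nlinarith [Nat.zero_le (n * i), Nat.zero_le n, Nat.zero_le i, Nat.zero_le t]
  rw [← h2, ← Nat.descFactorial_eq_prod_range, ← h1] at h3
  have hw : 0 < w.factorial := Nat.factorial_pos w
  have h4 : ((n + w) ^ w) * w.factorial ≤ (w ^ w * (n + w).choose w) * w.factorial := by
    calc _ ≤ w ^ w * ((n + w).choose w * w.factorial) := h3
      _ = _ := by ring
  exact Nat.le_of_mul_le_mul_right h4 hw

/-- `C(n + w, w) ≥ (1 + 1 / (κ + 1)) ^ w` if `w ≤ κ n` -/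
lemma log_ge (κ n w : ℕ) (hw : w ≤ κ * n) (c a : ℝ) (hc : 0 < c)
    (ha : (((n + w).choose w : ℕ) : ℝ) ^ c ≤ a) :
    c * (w * Real.log (1 + 1 / ((κ : ℝ) + 1))) ≤ Real.log a := by
  have hC1 : 1 ≤ (n + w).choose w := Nat.choose_pos (by omega)
  have hC : (1 : ℝ) ≤ (((n + w).choose w : ℕ) : ℝ) := by exact_mod_cast hC1
  have hC0 : (0 : ℝ) < (((n + w).choose w : ℕ) : ℝ) := by linarith
  have hκ : (0 : ℝ) < (κ : ℝ) + 1 := by positivity
  have h1 : w * Real.log (1 + 1 / ((κ : ℝ) + 1)) ≤ Real.log (((n + w).choose w : ℕ) : ℝ) := by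
    rcases Nat.eq_zero_or_pos w with rfl | hw0
    · simp only [Nat.cast_zero, zero_mul]
      exact Real.log_nonneg hC
    · have hw' : (0 : ℝ) < w := by exact_mod_cast hw0
      rw [← Real.log_pow]
      apply Real.log_le_log (by positivity)
      have h2 : (((n + w) ^ w : ℕ) : ℝ) ≤ ((w ^ w * (n + w).choose w : ℕ) : ℝ) := by
        exact_mod_cast pow_le_choose' n w
      push_cast at h2
      have h3 : (1 + 1 / ((κ : ℝ) + 1)) ≤ ((n : ℝ) + w) / w := by
        rw [add_div, div_self hw'.ne', add_comm]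
        apply add_le_add _ le_rfl
        rw [div_le_div_iff₀ hκ hw', one_mul]
        have h4 : (w : ℝ) ≤ κ * n := by exact_mod_cast hw
        nlinarith [Nat.cast_nonneg (α := ℝ) n]
      calc (1 + 1 / ((κ : ℝ) + 1)) ^ w ≤ (((n : ℝ) + w) / w) ^ w :=
            pow_le_pow_left₀ (by positivity) h3 w
        _ ≤ _ := by
            rw [div_pow, div_le_iff₀ (by positivity)]
            linarith
  have h5 : c * Real.log (((n + w).choose w : ℕ) : ℝ) ≤ Real.log a := by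
    rw [← Real.log_rpow hC0]
    exact Real.log_le_log (Real.rpow_pos_of_pos hC0 _) ha
  calc c * (w * Real.log (1 + 1 / ((κ : ℝ) + 1)))
      ≤ c * Real.log (((n + w).choose w : ℕ) : ℝ) := mul_le_mul_of_nonneg_left h1 hc.le
    _ ≤ Real.log a := h5

lemma one_le_of_choose (n w : ℕ) (c a : ℝ) (hc : 0 < c)
    (ha : (((n + w).choose w : ℕ) : ℝ) ^ c ≤ a) : 1 ≤ a := by
  have hC1 : 1 ≤ (n + w).choose w := Nat.choose_pos (by omega)
  have hC : (1 : ℝ) ≤ (((n + w).choose w : ℕ) : ℝ) := by exact_mod_cast hC1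
  exact (Real.one_le_rpow hC hc.le).trans ha

/-- `a ≤ B a ^ (ε / (1 + ε))` implies `a ≤ B ^ (1 + ε)` -/
lemma root (a B ε : ℝ) (ha : 1 ≤ a) (hε : 0 < ε) (h : a ≤ B * a ^ (ε / (1 + ε))) :
    a ≤ B ^ (1 + ε) := by
  have h1ε : 0 < 1 + ε := by linarith
  have ha0 : 0 < a := by linarith
  have h14 : a = a ^ (1 / (1 + ε)) * a ^ (ε / (1 + ε)) := by
    rw [← Real.rpow_add ha0, ← add_div, div_self h1ε.ne', Real.rpow_one]
  have h15 : 0 < a ^ (ε / (1 + ε)) := Real.rpow_pos_of_pos ha0 _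
  have hfin : a ^ (1 / (1 + ε)) ≤ B := by
    have h16 : a ^ (1 / (1 + ε)) * a ^ (ε / (1 + ε)) ≤ B * a ^ (ε / (1 + ε)) := by
      rw [← h14]
      exact h
    exact le_of_mul_le_mul_right h16 h15
  calc a = (a ^ (1 / (1 + ε))) ^ (1 + ε) := by
        rw [← Real.rpow_mul ha0.le, one_div, inv_mul_cancel₀ h1ε.ne', Real.rpow_one]
    _ ≤ B ^ (1 + ε) := Real.rpow_le_rpow (by positivity) hfin h1ε.le

/-- the projections of a subset of `ℤ ^ n × ℤ ^ n` -/
def bigV {n : ℕ} (S : Finset ℚ) (A : Finset ((Fin n → ℤ) × (Fin n → ℤ))) : ℕ :=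
  max (A.image Prod.snd).card
    (S.sup fun r => (A.image fun p => fun i => (p.1 i : ℚ) + r * (p.2 i : ℚ)).card)

theorem lat_eps (hP : S_PROJ1) (hE : S_EPS) (κ : ℕ) (c ε : ℝ) (hc : 0 < c) (hε : 0 < ε) :
    ∃ K : ℕ, ∀ S : Finset ℚ, (-1 : ℚ) ∉ S → K ≤ S.card → ∀ (n w : ℕ)
      (A : Finset ((Fin n → ℤ) × (Fin n → ℤ))), w ≤ κ * n →
      Interp w (A.image fun p => fun i => ((p.1 i : ℚ) - (p.2 i : ℚ))) →
      (((n + w).choose w : ℕ) : ℝ) ^ c ≤ ((A.image fun p => p.1 - p.2).card : ℝ) →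
      ((A.image fun p => p.1 - p.2).card : ℝ) ≤ (bigV S A : ℝ) ^ (1 + ε) := by
  have h1ε : 0 < 1 + ε := by linarith
  obtain ⟨K, hK⟩ := hE κ c (ε / (1 + ε)) hc (by positivity)
  refine ⟨K, fun S hS hKS n w A hw hI hC => ?_⟩
  have ha1 := one_le_of_choose n w c _ hc hC
  refine root _ _ ε ha1 hε ?_
  exact hK S.card hKS n w hw _ _ ha1 (Nat.cast_nonneg _) hC
    (fun x hx hx1 => hP n w S hS A hI x hx hx1)

/-- `d = ∑ r_i g_i` with `r ∈ T` -/
def InSet {n : ℕ} (g : Fin n → ℤ) (T : Finset (Fin n → ℕ)) (d : ℤ) : Prop :=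
  ∃ r ∈ T, d = ∑ i, (r i : ℤ) * g i

theorem int_eps (hI : S_INTG3) (hE : S_EPS) (hL : S_LOSS) (κ : ℕ) (c ε : ℝ) (hc : 0 < c)
    (hε : 0 < ε) :
    ∃ S : Finset ℚ, (-1 : ℚ) ∉ S ∧ ∃ Λ : ℕ, 1 ≤ Λ ∧ ∀ (n w H : ℕ) (g : Fin n → ℤ)
      (T : Finset (Fin n → ℕ)), 1 ≤ H → w ≤ κ * n → Dissoc (Λ * H) g →
      (∀ r ∈ T, (∀ i, r i ≤ H) ∧ ∑ i, r i ≤ H * w) →
      Interp w (T.image fun r => fun i => (r i : ℚ)) →
      ∀ A : Finset (ℤ × ℤ), (∀ p ∈ A, InSet g T (p.1 - p.2)) →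
      (((n + w).choose w : ℕ) : ℝ) ^ c ≤ ((proj (-1) A).card : ℝ) →
      ((proj (-1) A).card : ℝ) ≤ (big S A : ℝ) ^ (1 + ε) := by
  classical
  have h1ε : 0 < 1 + ε := by linarith
  set δ : ℝ := ε / (2 * (1 + ε)) with hδ
  have hδ0 : 0 < δ := by positivity
  obtain ⟨k, hk⟩ := hE κ c δ hc hδ0
  set lam : ℝ := Real.log (1 + 1 / ((κ : ℝ) + 1)) with hlam
  have hlam0 : 0 < lam := by
    apply Real.log_pos
    have : (0 : ℝ) < 1 / ((κ : ℝ) + 1) := by positivity
    linarith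
  obtain ⟨m, hm⟩ := exists_nat_gt (3 * (k : ℝ) / (δ * c * lam))
  set Λ₁ : ℕ := m + 2 * k + 1 with hΛ₁
  refine ⟨slopes k, neg_one_notMem k, 2 * Λ₁, by omega, ?_⟩
  intro n w H g T hH hw hg hT hInt A hA hC
  obtain ⟨D, y, hD, hcard, hW⟩ := transfer k A
  have ha1 := one_le_of_choose n w c _ hc hC
  set a : ℝ := ((proj (-1) A).card : ℝ) with ha
  have ha0 : 0 < a := by linarith
  have hlog := log_ge κ n w hw c a hc hC
  have hloga : 0 ≤ Real.log a := Real.log_nonneg ha1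
  have hH0 : (0 : ℝ) < H := by exact_mod_cast hH
  -- coefficients
  have hch : ∀ d : ℤ, ∃ r : Fin n → ℕ, d ∈ D → r ∈ T ∧ d = ∑ i, (r i : ℤ) * g i := by
    intro d
    by_cases hd : d ∈ D
    · have hd' := hd
      rw [hD] at hd'
      obtain ⟨p, hp, rfl⟩ := Finset.mem_image.1 hd'
      obtain ⟨r, hr, hrd⟩ := hA p hp
      exact ⟨r, fun _ => ⟨hr, hrd⟩⟩
    · exact ⟨0, fun h => absurd h hd⟩
  choose R hR using hch
  set L : ℕ := Λ₁ * H with hLdef
  have hL1 : 1 ≤ L := Nat.mul_pos (by omega) hH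
  have hL0 : (0 : ℝ) < L := by exact_mod_cast hL1
  have h2L : Dissoc (2 * L) g := by
    rw [hLdef, ← mul_assoc]
    exact hg
  have hkR : ∀ d ∈ D, ∀ i, 2 * (k * R d i) ≤ L ∧ k * R d i < L := by
    intro d hd i
    have h1 : R d i ≤ H := (hT _ (hR d hd).1).1 i
    have h2 : k * R d i ≤ k * H := Nat.mul_le_mul_left k h1
    have h3 : 2 * (k * H) + H ≤ L := by
      rw [hLdef, hΛ₁]
      nlinarith [Nat.zero_le (m * H)]
    constructor <;> omega
  have hτ : ∀ d ∈ D, a ^ (-δ) * ∏ i, ((L : ℝ) + k * R d i) ≤ ∏ i, ((L : ℝ) - k * R d i) := by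
    intro d hd
    refine le_trans ?_ (hL n k L (R d) hL1 fun i => (hkR d hd i).1)
    apply mul_le_mul_of_nonneg_right
    · rw [Real.rpow_def_of_pos ha0]
      apply Real.exp_le_exp.2
      have h1 : (∑ i, (R d i : ℝ)) ≤ H * w := by
        have := (hT _ (hR d hd).1).2
        exact_mod_cast this
      have h2 : 3 * (k : ℝ) * (∑ i, (R d i : ℝ)) / L ≤ δ * Real.log a := by
        rw [div_le_iff₀ hL0]
        have h3 : 3 * (k : ℝ) ≤ (Λ₁ : ℝ) * (δ * c * lam) := by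
          rw [div_lt_iff₀ (by positivity)] at hm
          have h4 : (m : ℝ) ≤ Λ₁ := by
            rw [hΛ₁]
            push_cast
            nlinarith [Nat.cast_nonneg (α := ℝ) k]
          have h5 : (m : ℝ) * (δ * c * lam) ≤ (Λ₁ : ℝ) * (δ * c * lam) :=
            mul_le_mul_of_nonneg_right h4 (by positivity)
          linarith
        calc 3 * (k : ℝ) * (∑ i, (R d i : ℝ)) ≤ 3 * (k : ℝ) * (H * w) :=
              mul_le_mul_of_nonneg_left h1 (by positivity)
          _ ≤ ((Λ₁ : ℝ) * (δ * c * lam)) * (H * w) :=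
              mul_le_mul_of_nonneg_right h3 (by positivity)
          _ = δ * (c * (w * lam)) * (Λ₁ * H) := by ring
          _ ≤ δ * Real.log a * (Λ₁ * H) := by
              apply mul_le_mul_of_nonneg_right _ (by positivity)
              exact mul_le_mul_of_nonneg_left hlog hδ0.le
          _ = δ * Real.log a * L := by
              rw [hLdef]
              push_cast
              ring
      nlinarith
    · exact Finset.prod_nonneg fun i _ => by positivity
  have hIntD : Interp w (D.image fun d => fun i => (R d i : ℚ)) := by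
    intro u
    obtain ⟨f, hf1, hf2⟩ := hInt u
    refine ⟨f, hf1, fun e he => hf2 e ?_⟩
    obtain ⟨d, hd, rfl⟩ := Finset.mem_image.1 he
    exact Finset.mem_image.2 ⟨R d, (hR d hd).1, rfl⟩
  have hmain := hI n k L w (big (slopes k) A) (a ^ (-δ)) g D R y (Real.rpow_nonneg ha0.le _)
    (fun d hd i => (hkR d hd i).2) h2L (fun d hd => (hR d hd).2) hτ hIntD hW
  have hDa : (D.card : ℝ) = a := by
    rw [ha, hcard]
  have hfin := hk k le_rfl n w hw a ((big (slopes k) A : ℝ) * a ^ δ) ha1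
    (mul_nonneg (Nat.cast_nonneg _) (Real.rpow_nonneg ha0.le _)) hC
    (by
      intro x hx hx1
      have h1 := hmain x hx hx1
      rw [hDa] at h1
      have h2 : a ^ (k + 1) = (a ^ (-δ) * a) ^ (k + 1) * (a ^ δ) ^ (k + 1) := by
        rw [← mul_pow]
        congr 1
        rw [mul_right_comm, ← Real.rpow_add ha0]
        simp
      calc a ^ (k + 1) * x ^ w = ((a ^ (-δ) * a) ^ (k + 1) * x ^ w) * (a ^ δ) ^ (k + 1) := by
            rw [h2]
            ring
        _ ≤ ((big (slopes k) A : ℝ) ^ (k + 1) * (1 + x) ^ ((k + 1) * n + w)) *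
              (a ^ δ) ^ (k + 1) :=
            mul_le_mul_of_nonneg_right h1 (pow_nonneg (Real.rpow_nonneg ha0.le _) _)
        _ = ((big (slopes k) A : ℝ) * a ^ δ) ^ (k + 1) * (1 + x) ^ ((k + 1) * n + w) := by
            rw [mul_pow]
            ring)
  refine root a _ ε ha1 hε ?_
  calc a ≤ (big (slopes k) A : ℝ) * a ^ δ * a ^ δ := hfin
    _ = (big (slopes k) A : ℝ) * a ^ (ε / (1 + ε)) := by
        rw [mul_assoc, ← Real.rpow_add ha0]
        congr 2
        rw [hδ]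
        field_simp
        ring

end Pool.Agent.Y57.AK
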