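import Mathlib
import Pool.Agent.Y57.AK.Stm3

set_option autoImplicit false

open Finset

namespace Pool.Agent.Y57.AK

lemma coeff_zero_sh {ι : Type} (p : ι → ℚ) (f : MvPolynomial ι ℚ) :
    (sh p f).coeff 0 = MvPolynomial.eval p f := by
  have h : (MvPolynomial.constantCoeff (R := ℚ) (σ := ι)).comp
      ((MvPolynomial.aeval (fun i => MvPolynomial.X i + MvPolynomial.C (p i)) :
        MvPolynomial ι ℚ →ₐ[ℚ] MvPolynomial ι ℚ) : MvPolynomial ι ℚ →+* MvPolynomial ι ℚ) =
      MvPolynomial.eval p := by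
    apply MvPolynomial.ringHom_ext
    · intro r
      simp
    · intro i
      simp
  have := congrArg (fun φ : MvPolynomial ι ℚ →+* ℚ => φ f) h
  simpa [sh, MvPolynomial.constantCoeff_eq] using this

theorem t_GRID (hI : S_INT) : S_GRID := by
  intro ι _ _ S q D hS hD u
  obtain ⟨f, hf, hf2⟩ := hI ι S q 1 hS (fun p _ => u p)
  refine ⟨f, by simpa using hf, fun d hd => ?_⟩
  rw [← coeff_zero_sh]
  exact hf2 d (hD d hd) 0 (by simp)

end Pool.Agent.Y57.AK
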