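import Mathlib
import Pool.Agent.Y57.AK.Fin3
import Pool.Agent.Y57.AK.Grid
import Pool.Agent.Y57.AK.Card
import Pool.Agent.Y972.AK.LINE
import Pool.Agent.Y972.AK.INT
import Pool.Agent.Y983.AK.DIM
import Pool.Agent.Y378.AK.LIM
import Pool.Agent.Y383.AK.TEN
import Pool.Agent.Y38.AK.PROJ
import Pool.Agent.Y429.AK.GAP
import Pool.Agent.Y232.AK.INTG2
import Pool.Agent.Y759.AK.DIM1
import Pool.Agent.Y57.AK.Ten1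
import Pool.Agent.Y809.AK.PROJ1
import Pool.Agent.Y918.AK.GAP1
import Pool.Agent.Y927.AK.INTG3
import Pool.Agent.Y170.AK.SIMP
import Pool.Agent.Y232.AK.EPS
import Pool.Agent.Y700.AK.LOSS

set_option autoImplicit false

open Finset

namespace Pool.Agent.Y57.AK

theorem h_LINE : S_LINE := Pool.Agent.Y972.AK.t_LINE
theorem h_INT : S_INT := Pool.Agent.Y972.AK.t_INT
theorem h_DIM : S_DIM := Pool.Agent.Y983.AK.t_DIM h_LINE h_INT t_CARD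
theorem h_LIM : S_LIM := Pool.Agent.Y378.AK.t_LIM h_DIM
theorem h_TEN : S_TEN := Pool.Agent.Y383.AK.t_TEN h_LIM
theorem h_PROJ : S_PROJ := Pool.Agent.Y38.AK.t_PROJ h_TEN
theorem h_GAP : S_GAP := Pool.Agent.Y429.AK.t_GAP
theorem h_INTG2 : S_INTG2 := Pool.Agent.Y232.AK.t_INTG2 h_TEN h_GAP
theorem h_DIM1 : S_DIM1 := Pool.Agent.Y759.AK.t_DIM1 h_LINE t_CARD
theorem h_TEN1 : S_TEN1 := t_TEN1 h_DIM1
theorem h_PROJ1 : S_PROJ1 := Pool.Agent.Y809.AK.t_PROJ1 h_TEN1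
theorem h_GAP1 : S_GAP1 := Pool.Agent.Y918.AK.t_GAP1
theorem h_INTG3 : S_INTG3 := Pool.Agent.Y927.AK.t_INTG3 h_TEN1 h_GAP1
theorem h_SIMP : S_SIMP := Pool.Agent.Y170.AK.t_SIMP
theorem h_EPS : S_EPS := Pool.Agent.Y232.AK.t_EPS
theorem h_LOSS : S_LOSS := Pool.Agent.Y700.AK.t_LOSS

/-- the projection `π_r(A)` for `A ⊆ ℤ ^ n × ℤ ^ n` -/
def projV {n : ℕ} (r : ℚ) (A : Finset ((Fin n → ℤ) × (Fin n → ℤ))) : Finset (Fin n → ℚ) :=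
  A.image (fun p => fun i => (p.1 i : ℚ) + r * (p.2 i : ℚ))

lemma projV_neg {n : ℕ} (A : Finset ((Fin n → ℤ) × (Fin n → ℤ))) :
    projV (-1) A = A.image fun p => fun i => ((p.1 i : ℚ) - (p.2 i : ℚ)) := by
  unfold projV
  apply Finset.image_congr
  intro p _
  funext i
  ring

lemma card_projV {n : ℕ} (A : Finset ((Fin n → ℤ) × (Fin n → ℤ))) :
    (projV (-1) A).card = (A.image fun p => p.1 - p.2).card := by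
  have h1 : projV (-1) A = (A.image fun p => p.1 - p.2).image
      (fun v : Fin n → ℤ => fun i => (v i : ℚ)) := by
    rw [projV_neg, Finset.image_image]
    apply Finset.image_congr
    intro p _
    funext i
    simp
  rw [h1, Finset.card_image_of_injective]
  intro v v' h
  funext i
  have h2 : ((v i : ℤ) : ℚ) = ((v' i : ℤ) : ℚ) := congrFun h i
  exact_mod_cast h2

theorem part1 (n w : ℕ) (S : Finset ℚ) (hS : (-1 : ℚ) ∉ S)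
    (A : Finset ((Fin n → ℤ) × (Fin n → ℤ))) (hA : Interp w (projV (-1) A)) (x : ℝ) (hx : 0 < x)
    (hx1 : x ≤ 1) : ((projV (-1) A).card : ℝ) ^ (S.card + 1) * x ^ w ≤
        (bigV S A : ℝ) ^ (S.card + 1) * (1 + x) ^ ((S.card + 1) * n + w) := by
  rw [card_projV]
  rw [projV_neg] at hA
  exact h_PROJ1 n w S hS A hA x hx hx1

theorem part2 (n q : ℕ) (S : Finset ℚ) (hq : 1 ≤ q) (hS : (-1 : ℚ) ∉ S)
    (A : Finset ((Fin n → ℤ) × (Fin n → ℤ)))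
    (hA : ∀ i, (A.image fun p => p.1 i - p.2 i).card ≤ q) :
    (projV (-1) A).card * (S.card + 1) ^ n ≤ bigV S A * (S.card + q) ^ n := by
  rw [card_projV]
  exact h_PROJ n q S hq hS A hA

theorem part3 (κ : ℕ) (c ε : ℝ) (hc : 0 < c) (hε : 0 < ε) : ∃ K : ℕ, ∀ S : Finset ℚ,
      (-1 : ℚ) ∉ S → K ≤ S.card →
      ∀ (n w : ℕ) (A : Finset ((Fin n → ℤ) × (Fin n → ℤ))), w ≤ κ * n →
      Interp w (projV (-1) A) →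
      (((n + w).choose w : ℕ) : ℝ) ^ c ≤ ((projV (-1) A).card : ℝ) →
      ((projV (-1) A).card : ℝ) ≤ (bigV S A : ℝ) ^ (1 + ε) := by
  obtain ⟨K, hK⟩ := lat_eps h_PROJ1 h_EPS κ c ε hc hε
  refine ⟨K, fun S hS hKS n w A hw hI hC => ?_⟩
  rw [card_projV] at hC ⊢
  rw [projV_neg] at hI
  exact hK S hS hKS n w A hw hI hC

theorem part4 (κ : ℕ) (c ε : ℝ) (hc : 0 < c) (hε : 0 < ε) : ∃ S : Finset ℚ, (-1 : ℚ) ∉ S ∧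
      ∃ Λ : ℕ, ∀ (n w H : ℕ) (g : Fin n → ℤ) (T : Finset (Fin n → ℕ)), 1 ≤ H → w ≤ κ * n →
      Dissoc (Λ * H) g → (∀ r ∈ T, (∀ i, r i ≤ H) ∧ ∑ i, r i ≤ H * w) →
      Interp w (T.image fun r => fun i => (r i : ℚ)) →
      ∀ A : Finset (ℤ × ℤ), (∀ p ∈ A, ∃ r ∈ T, p.1 - p.2 = ∑ i, (r i : ℤ) * g i) →
      (((n + w).choose w : ℕ) : ℝ) ^ c ≤ ((proj (-1) A).card : ℝ) →
      ((proj (-1) A).card : ℝ) ≤ (big S A : ℝ) ^ (1 + ε) := by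
  obtain ⟨S, hS, Λ, _, h⟩ := int_eps h_INTG3 h_EPS h_LOSS κ c ε hc hε
  exact ⟨S, hS, Λ, fun n w H g T hH hw hg hT hI A hA hC => h n w H g T hH hw hg hT hI A hA hC⟩

theorem part5 (κ : ℕ) (c ε : ℝ) (hc : 0 < c) (hε : 0 < ε) : ∃ S : Finset ℚ, (-1 : ℚ) ∉ S ∧
      ∃ Λ : ℕ, ∀ (n w H : ℕ) (g : Fin n → ℤ), 1 ≤ H → w ≤ κ * n → Dissoc (Λ * H) g →
      ∀ A : Finset (ℤ × ℤ), (∀ p ∈ A, ∃ r : Fin n → ℕ, (∀ i, r i ≤ H) ∧ ∑ i, r i ≤ w ∧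
        p.1 - p.2 = ∑ i, (r i : ℤ) * g i) →
      (((n + w).choose w : ℕ) : ℝ) ^ c ≤ ((proj (-1) A).card : ℝ) →
      ((proj (-1) A).card : ℝ) ≤ (big S A : ℝ) ^ (1 + ε) := by
  classical
  obtain ⟨S, hS, Λ, h⟩ := part4 κ c ε hc hε
  refine ⟨S, hS, Λ, fun n w H g hH hw hg A hA hC => ?_⟩
  set T : Finset (Fin n → ℕ) :=
    (Fintype.piFinset fun _ : Fin n => range (H + 1)).filter fun r => ∑ i, r i ≤ w with hT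
  have hmem : ∀ r : Fin n → ℕ, r ∈ T ↔ (∀ i, r i ≤ H) ∧ ∑ i, r i ≤ w := by
    intro r
    rw [hT, Finset.mem_filter, Fintype.mem_piFinset]
    simp only [Finset.mem_range, Nat.lt_succ_iff]
  refine h n w H g T hH hw hg ?_ ?_ A ?_ hC
  · intro r hr
    obtain ⟨h1, h2⟩ := (hmem r).1 hr
    exact ⟨h1, h2.trans (Nat.le_mul_of_pos_left w hH)⟩
  · apply h_SIMP
    intro d hd
    obtain ⟨r, hr, rfl⟩ := Finset.mem_image.1 hd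
    exact ⟨r, ((hmem r).1 hr).2, rfl⟩
  · intro p hp
    obtain ⟨r, h1, h2, h3⟩ := hA p hp
    exact ⟨r, (hmem r).2 ⟨h1, h2⟩, h3⟩

theorem part6 (q : ℕ) (hq : 1 ≤ q) (c ε : ℝ) (hc : 0 < c) (hε : 0 < ε) : ∃ S : Finset ℚ,
      (-1 : ℚ) ∉ S ∧ ∃ Λ : ℕ,
      ∀ (M n H : ℕ) (R : Fin n → Finset ℕ), 1 ≤ H → Λ * H < M →
      (∀ i, (R i).card ≤ q ∧ ∀ r ∈ R i, r ≤ H) →
      ∀ A : Finset (ℤ × ℤ), (∀ p ∈ A, ∃ r : Fin n → ℕ, (∀ i, r i ∈ R i) ∧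
        p.1 - p.2 = ∑ i, (r i : ℤ) * (M : ℤ) ^ (i : ℕ)) →
      (2 : ℝ) ^ (c * n) ≤ ((proj (-1) A).card : ℝ) →
      ((proj (-1) A).card : ℝ) ≤ (big S A : ℝ) ^ (1 + ε) := by
  obtain ⟨S, hS, Λ, _, h⟩ := eps2 h_INTG2 q hq c ε hc hε
  refine ⟨S, hS, Λ, fun M n H R hH hM hR A hA hC => ?_⟩
  exact h n H (fun i : Fin n => (M : ℤ) ^ (i : ℕ)) R hH (dissoc_pow M (Λ * H) hM n) hR A hA hC

theorem final :
    (∀ (n w : ℕ) (S : Finset ℚ), (-1 : ℚ) ∉ S → ∀ A : Finset ((Fin n → ℤ) × (Fin n → ℤ)),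
      Interp w (projV (-1) A) → ∀ x : ℝ, 0 < x → x ≤ 1 →
      ((projV (-1) A).card : ℝ) ^ (S.card + 1) * x ^ w ≤
        (bigV S A : ℝ) ^ (S.card + 1) * (1 + x) ^ ((S.card + 1) * n + w)) ∧
    (∀ (n q : ℕ) (S : Finset ℚ), 1 ≤ q → (-1 : ℚ) ∉ S →
      ∀ A : Finset ((Fin n → ℤ) × (Fin n → ℤ)), (∀ i, (A.image fun p => p.1 i - p.2 i).card ≤ q) →
      (projV (-1) A).card * (S.card + 1) ^ n ≤ bigV S A * (S.card + q) ^ n) ∧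
    (∀ (κ : ℕ) (c ε : ℝ), 0 < c → 0 < ε → ∃ K : ℕ, ∀ S : Finset ℚ, (-1 : ℚ) ∉ S → K ≤ S.card →
      ∀ (n w : ℕ) (A : Finset ((Fin n → ℤ) × (Fin n → ℤ))), w ≤ κ * n →
      Interp w (projV (-1) A) →
      (((n + w).choose w : ℕ) : ℝ) ^ c ≤ ((projV (-1) A).card : ℝ) →
      ((projV (-1) A).card : ℝ) ≤ (bigV S A : ℝ) ^ (1 + ε)) ∧
    (∀ (κ : ℕ) (c ε : ℝ), 0 < c → 0 < ε → ∃ S : Finset ℚ, (-1 : ℚ) ∉ S ∧ ∃ Λ : ℕ,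
      ∀ (n w H : ℕ) (g : Fin n → ℤ) (T : Finset (Fin n → ℕ)), 1 ≤ H → w ≤ κ * n →
      Dissoc (Λ * H) g → (∀ r ∈ T, (∀ i, r i ≤ H) ∧ ∑ i, r i ≤ H * w) →
      Interp w (T.image fun r => fun i => (r i : ℚ)) →
      ∀ A : Finset (ℤ × ℤ), (∀ p ∈ A, ∃ r ∈ T, p.1 - p.2 = ∑ i, (r i : ℤ) * g i) →
      (((n + w).choose w : ℕ) : ℝ) ^ c ≤ ((proj (-1) A).card : ℝ) →
      ((proj (-1) A).card : ℝ) ≤ (big S A : ℝ) ^ (1 + ε)) ∧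
    (∀ (κ : ℕ) (c ε : ℝ), 0 < c → 0 < ε → ∃ S : Finset ℚ, (-1 : ℚ) ∉ S ∧ ∃ Λ : ℕ,
      ∀ (n w H : ℕ) (g : Fin n → ℤ), 1 ≤ H → w ≤ κ * n → Dissoc (Λ * H) g →
      ∀ A : Finset (ℤ × ℤ), (∀ p ∈ A, ∃ r : Fin n → ℕ, (∀ i, r i ≤ H) ∧ ∑ i, r i ≤ w ∧
        p.1 - p.2 = ∑ i, (r i : ℤ) * g i) →
      (((n + w).choose w : ℕ) : ℝ) ^ c ≤ ((proj (-1) A).card : ℝ) →
      ((proj (-1) A).card : ℝ) ≤ (big S A : ℝ) ^ (1 + ε)) ∧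
    (∀ q : ℕ, 1 ≤ q → ∀ c ε : ℝ, 0 < c → 0 < ε → ∃ S : Finset ℚ, (-1 : ℚ) ∉ S ∧ ∃ Λ : ℕ,
      ∀ (M n H : ℕ) (R : Fin n → Finset ℕ), 1 ≤ H → Λ * H < M →
      (∀ i, (R i).card ≤ q ∧ ∀ r ∈ R i, r ≤ H) →
      ∀ A : Finset (ℤ × ℤ), (∀ p ∈ A, ∃ r : Fin n → ℕ, (∀ i, r i ∈ R i) ∧
        p.1 - p.2 = ∑ i, (r i : ℤ) * (M : ℤ) ^ (i : ℕ)) →
      (2 : ℝ) ^ (c * n) ≤ ((proj (-1) A).card : ℝ) →
      ((proj (-1) A).card : ℝ) ≤ (big S A : ℝ) ^ (1 + ε)) :=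
  ⟨fun n w S hS A hA x hx hx1 => part1 n w S hS A hA x hx hx1,
    fun n q S hq hS A hA => part2 n q S hq hS A hA,
    fun κ c ε hc hε => part3 κ c ε hc hε,
    fun κ c ε hc hε => part4 κ c ε hc hε,
    fun κ c ε hc hε => part5 κ c ε hc hε,
    fun q hq c ε hc hε => part6 q hq c ε hc hε⟩

end Pool.Agent.Y57.AK
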