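import Mathlib
import Pool.Agent.Y57.AK.Fin2

set_option autoImplicit false

open Finset

namespace Pool.Agent.Y57.AK

lemma dissoc_rev (M L : ℕ) (hL : L < M) (m : ℕ) :
    Dissoc L (fun i : Fin m => (M : ℤ) ^ (m - 1 - (i : ℕ))) := by
  intro c hc hs
  have h := dissoc_pow M L hL m (fun i => c (Fin.rev i)) (fun i => hc _) (by
    rw [← hs]
    refine Fintype.sum_equiv Fin.revPerm _ _ fun i => ?_
    simp only [Fin.revPerm_apply, Fin.val_rev]
    congr 2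
    omega)
  funext i
  have := congrFun h (Fin.rev i)
  simpa using this

lemma floor_near (u v : ℝ) (h : |u - v| < 1) :
    ⌊u⌋ = ⌊v⌋ - 1 ∨ ⌊u⌋ = ⌊v⌋ ∨ ⌊u⌋ = ⌊v⌋ + 1 := by
  rw [abs_lt] at h
  have h1 := Int.floor_le u
  have h2 := Int.lt_floor_add_one u
  have h3 := Int.floor_le v
  have h4 := Int.lt_floor_add_one v
  have h5 : (⌊u⌋ : ℝ) < (⌊v⌋ : ℝ) + 2 := by linarith
  have h6 : (⌊v⌋ : ℝ) - 2 < (⌊u⌋ : ℝ) := by linarith
  have h5' : ⌊u⌋ < ⌊v⌋ + 2 := by exact_mod_cast h5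
  have h6' : ⌊v⌋ - 2 < ⌊u⌋ := by exact_mod_cast h6
  omega

/-- the numbers `∑_{i < m} r_i M ^ (-(i + 1))`, `r_i ∈ R_i`, `m ≥ 0` -/
def Diff (M : ℕ) (R : ℕ → Finset ℕ) : Set ℝ :=
  {ρ | ∃ (m : ℕ) (r : ℕ → ℕ), (∀ i < m, r i ∈ R i) ∧
    ρ = ∑ i ∈ range m, (r i : ℝ) / (M : ℝ) ^ (i + 1)}

theorem cantor (hI : S_INTG2) (q : ℕ) (hq : 1 ≤ q) (ε : ℝ) (hε : 0 < ε) :
    ∃ k Λ : ℕ, ∀ (H M : ℕ) (R : ℕ → Finset ℕ), 1 ≤ H → Λ * H < M →
      (∀ i, 2 ≤ (R i).card ∧ (R i).card ≤ q ∧ ∀ r ∈ R i, r ≤ H) →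
      ∀ B : Set ℝ, (∀ ρ ∈ Diff M R, ∃ a : ℝ, ∀ j : ℕ, j < k → a + j * ρ ∈ B) →
      ∀ (m : ℕ) (P : Finset ℝ), (B ⊆ ⋃ x ∈ P, Metric.ball x (((M : ℝ) ^ m)⁻¹)) →
      (((∏ i ∈ range m, (R i).card : ℕ)) : ℝ) ^ (1 - ε) ≤ 3 * (P.card : ℝ) := by
  classical
  set ρ : ℝ := (2 : ℝ) ^ (ε / 2) with hρdef
  have hρ : 1 < ρ := Real.one_lt_rpow (by norm_num) (by positivity)
  have hρ0 : 0 < ρ := by linarith
  obtain ⟨k, hk⟩ := exists_ratio q ρ hρ
  obtain ⟨Λ, hkΛ, hΛ⟩ := exists_ratio2 k ρ hρ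
  refine ⟨k + 1, Λ + k, ?_⟩
  intro H M R hH hM hR B hB m P hP
  have hM0 : 0 < M := by omega
  have hMr : (0 : ℝ) < M := by exact_mod_cast hM0
  have hMm : (0 : ℝ) < (M : ℝ) ^ m := pow_pos hMr m
  set g : Fin m → ℤ := fun i => (M : ℤ) ^ (m - 1 - (i : ℕ)) with hgdef
  have hg : Dissoc (Λ * H + k * H) g := by
    rw [← add_mul]
    exact dissoc_rev M _ hM m
  set F : (Fin m → ℕ) → ℤ := fun r => ∑ i, (r i : ℤ) * g i with hF
  set T : Finset (Fin m → ℕ) := Fintype.piFinset fun i : Fin m => R i with hT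
  set D : Finset ℤ := T.image F with hD
  have hcardT : T.card = ∏ i ∈ range m, (R i).card := by
    rw [hT, Fintype.card_piFinset, Finset.prod_range (fun i => (R i).card)]
  have hinj : Set.InjOn F (T : Set (Fin m → ℕ)) := by
    intro r hr r' hr' h
    have hr1 : r ∈ T := hr
    have hr2 : r' ∈ T := hr'
    rw [hT, Fintype.mem_piFinset] at hr1 hr2
    have h1 := hg (fun i => (r i : ℤ) - r' i) (by
      intro i
      have h2 := (hR i).2.2 _ (hr1 i)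
      have h3 := (hR i).2.2 _ (hr2 i)
      have h4 : H ≤ Λ * H + k * H := by nlinarith
      rw [abs_le]
      constructor <;> push_cast <;> omega) (by
      have : F r = F r' := h
      rw [hF] at this
      simp only at this
      rw [← sub_eq_zero, ← Finset.sum_sub_distrib] at this
      rw [← this]
      refine Finset.sum_congr rfl fun i _ => ?_
      ring)
    funext i
    have h5 := congrFun h1 i
    simp only [Pi.zero_apply] at h5
    omega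
  have hcardD : D.card = ∏ i ∈ range m, (R i).card := by
    rw [hD, Finset.card_image_of_injOn hinj, hcardT]
  -- the common difference of `d`
  have hdiff : ∀ d ∈ D, ((d : ℝ) / (M : ℝ) ^ m) ∈ Diff M R := by
    intro d hd
    obtain ⟨r, hr, rfl⟩ := Finset.mem_image.1 hd
    rw [hT, Fintype.mem_piFinset] at hr
    refine ⟨m, fun i => if h : i < m then r ⟨i, h⟩ else 0, ?_, ?_⟩
    · intro i hi
      simp only [hi, dif_pos]
      exact hr ⟨i, hi⟩
    · rw [Finset.sum_range (fun i => (((if h : i < m then r ⟨i, h⟩ else 0 : ℕ) : ℕ) : ℝ) /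
        (M : ℝ) ^ (i + 1)), hF]
      simp only [Fin.is_lt, dif_pos, Fin.eta]
      push_cast
      rw [Finset.sum_div]
      refine Finset.sum_congr rfl fun i _ => ?_
      rw [hgdef]
      simp only
      push_cast
      have hi := i.2
      rw [div_eq_div_iff hMm.ne' (pow_pos hMr _).ne', mul_assoc, ← pow_add]
      congr 2
      omega
  have hch : ∀ d : ℤ, ∃ a : ℝ, d ∈ D → ∀ j : ℕ, j < k + 1 →
      a + j * ((d : ℝ) / (M : ℝ) ^ m) ∈ B := by
    intro d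
    by_cases hd : d ∈ D
    · obtain ⟨a, ha⟩ := hB _ (hdiff d hd)
      exact ⟨a, fun _ => ha⟩
    · exact ⟨0, fun h => absurd h hd⟩
  choose a ha using hch
  have hkL : k * H < Λ * H := Nat.mul_lt_mul_of_pos_right hkΛ hH
  have hmain := hI m k H (Λ * H) q (3 * P.card) g (fun i => R i) D
    (fun d => ⌊(M : ℝ) ^ m * a d⌋) hkL hg hq (fun i => ⟨(hR i).2.1, (hR i).2.2⟩) (by
      intro d hd
      obtain ⟨r, hr, rfl⟩ := Finset.mem_image.1 hd
      rw [hT, Fintype.mem_piFinset] at hr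
      exact ⟨r, hr, rfl⟩) (by
      intro j hj
      have hsub : (D.image fun d => ⌊(M : ℝ) ^ m * a d⌋ + (j : ℤ) * d) ⊆
          P.biUnion fun x => {⌊(M : ℝ) ^ m * x⌋ - 1, ⌊(M : ℝ) ^ m * x⌋,
            ⌊(M : ℝ) ^ m * x⌋ + 1} := by
        intro z hz
        obtain ⟨d, hd, rfl⟩ := Finset.mem_image.1 hz
        have hb := hP (ha d hd j (by omega))
        simp only [Set.mem_iUnion] at hb
        obtain ⟨x, hx, hxb⟩ := hb
        rw [Metric.mem_ball, Real.dist_eq] at hxb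
        have h1 : ⌊(M : ℝ) ^ m * (a d + j * ((d : ℝ) / (M : ℝ) ^ m))⌋ =
            ⌊(M : ℝ) ^ m * a d⌋ + (j : ℤ) * d := by
          have h2 : (M : ℝ) ^ m * (a d + j * ((d : ℝ) / (M : ℝ) ^ m)) =
              (M : ℝ) ^ m * a d + ((((j : ℤ) * d : ℤ)) : ℝ) := by
            push_cast
            field_simp
          rw [h2, Int.floor_add_intCast]
        have h3 : |(M : ℝ) ^ m * (a d + j * ((d : ℝ) / (M : ℝ) ^ m)) - (M : ℝ) ^ m * x| < 1 := by
          rw [← mul_sub, abs_mul, abs_of_pos hMm]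
          calc (M : ℝ) ^ m * |a d + j * ((d : ℝ) / (M : ℝ) ^ m) - x|
              < (M : ℝ) ^ m * ((M : ℝ) ^ m)⁻¹ := mul_lt_mul_of_pos_left hxb hMm
            _ = 1 := mul_inv_cancel₀ hMm.ne'
        have h4 := floor_near _ _ h3
        rw [h1] at h4
        refine Finset.mem_biUnion.2 ⟨x, hx, ?_⟩
        simp only [Finset.mem_insert, Finset.mem_singleton]
        exact h4
      calc (D.image fun d => ⌊(M : ℝ) ^ m * a d⌋ + (j : ℤ) * d).card
          ≤ (P.biUnion fun x => ({⌊(M : ℝ) ^ m * x⌋ - 1, ⌊(M : ℝ) ^ m * x⌋,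
            ⌊(M : ℝ) ^ m * x⌋ + 1} : Finset ℤ)).card := Finset.card_le_card hsub
        _ ≤ ∑ x ∈ P, ({⌊(M : ℝ) ^ m * x⌋ - 1, ⌊(M : ℝ) ^ m * x⌋,
            ⌊(M : ℝ) ^ m * x⌋ + 1} : Finset ℤ).card := Finset.card_biUnion_le
        _ ≤ ∑ _x ∈ P, 3 := Finset.sum_le_sum fun x _ => Finset.card_le_three
        _ = 3 * P.card := by rw [Finset.sum_const, smul_eq_mul, mul_comm])
  -- real numbers
  have hH0 : (0 : ℝ) < H := by exact_mod_cast hH
  have hkΛ' : (k : ℝ) < Λ := by exact_mod_cast hkΛ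
  set A : ℝ := (((∏ i ∈ range m, (R i).card : ℕ)) : ℝ) with hA
  have hA2 : (2 : ℝ) ^ m ≤ A := by
    have : 2 ^ m ≤ ∏ i ∈ range m, (R i).card := by
      calc 2 ^ m = ∏ _i ∈ range m, 2 := by simp
        _ ≤ _ := Finset.prod_le_prod' fun i _ => (hR i).1
    rw [hA]
    exact_mod_cast this
  have hA0 : 0 < A := lt_of_lt_of_le (by positivity) hA2
  have hQ' : A * ((((Λ : ℝ) - k) * H) * ((k : ℝ) + 1)) ^ m ≤
      (3 * (P.card : ℝ)) * ((((Λ : ℝ) + k) * H) * ((k : ℝ) + q)) ^ m := by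
    have h7 : ((Λ * H - k * H : ℕ) : ℝ) = ((Λ : ℝ) - k) * H := by
      rw [Nat.cast_sub hkL.le]
      push_cast
      ring
    have h8 : ((Λ * H + k * H : ℕ) : ℝ) = ((Λ : ℝ) + k) * H := by
      push_cast
      ring
    have h6 : (((∏ i ∈ range m, (R i).card : ℕ)) : ℝ) *
        (((Λ * H - k * H : ℕ) : ℝ) * ((k : ℝ) + 1)) ^ m ≤
        (3 * (P.card : ℝ)) * (((Λ * H + k * H : ℕ) : ℝ) * ((k : ℝ) + q)) ^ m := by
      rw [hcardD] at hmain
      generalize Λ * H - k * H = u at hmain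
      generalize Λ * H + k * H = v at hmain
      exact_mod_cast hmain
    rw [h7, h8] at h6
    exact h6
  have h9 : 0 < (Λ : ℝ) - k := by linarith
  have hT0 : 0 < (((Λ : ℝ) - k) * H) * ((k : ℝ) + 1) := by positivity
  have hUT : (((Λ : ℝ) + k) * H) * ((k : ℝ) + q) ≤
      (ρ * ρ) * ((((Λ : ℝ) - k) * H) * ((k : ℝ) + 1)) := by
    calc (((Λ : ℝ) + k) * H) * ((k : ℝ) + q)
        ≤ ((ρ * ((Λ : ℝ) - k)) * H) * (ρ * ((k : ℝ) + 1)) := by
          apply mul_le_mul _ hk (by positivity) (by positivity)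
          exact mul_le_mul_of_nonneg_right hΛ hH0.le
      _ = (ρ * ρ) * ((((Λ : ℝ) - k) * H) * ((k : ℝ) + 1)) := by ring
  have hfin : A ≤ (3 * (P.card : ℝ)) * (ρ * ρ) ^ m := by
    have h10 : (3 * (P.card : ℝ)) * ((((Λ : ℝ) + k) * H) * ((k : ℝ) + q)) ^ m ≤
        (3 * (P.card : ℝ)) * (ρ * ρ) ^ m * ((((Λ : ℝ) - k) * H) * ((k : ℝ) + 1)) ^ m := by
      calc (3 * (P.card : ℝ)) * ((((Λ : ℝ) + k) * H) * ((k : ℝ) + q)) ^ m
          ≤ (3 * (P.card : ℝ)) * ((ρ * ρ) * ((((Λ : ℝ) - k) * H) * ((k : ℝ) + 1))) ^ m :=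
            mul_le_mul_of_nonneg_left (pow_le_pow_left₀ (by positivity) hUT m) (by positivity)
        _ = _ := by
            rw [mul_pow]
            ring
    exact le_of_mul_le_mul_right (hQ'.trans h10) (pow_pos hT0 m)
  have hρm : (ρ * ρ) ^ m ≤ A ^ ε := by
    have h12 : (ρ * ρ) ^ m = ((2 : ℝ) ^ m) ^ ε := by
      rw [hρdef, ← Real.rpow_add (by norm_num), ← Real.rpow_natCast, ← Real.rpow_mul (by norm_num),
        ← Real.rpow_natCast, ← Real.rpow_mul (by norm_num)]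
      congr 1
      ring
    rw [h12]
    exact Real.rpow_le_rpow (by positivity) hA2 hε.le
  have h13 : A ≤ (3 * (P.card : ℝ)) * A ^ ε :=
    hfin.trans (mul_le_mul_of_nonneg_left hρm (by positivity))
  have h14 : A = A ^ (1 - ε) * A ^ ε := by
    rw [← Real.rpow_add hA0]
    simp
  have h15 : 0 < A ^ ε := Real.rpow_pos_of_pos hA0 _
  have h16 : A ^ (1 - ε) * A ^ ε ≤ (3 * (P.card : ℝ)) * A ^ ε := by
    rw [← h14]
    exact h13
  exact le_of_mul_le_mul_right h16 h15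

end Pool.Agent.Y57.AK
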