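import Mathlib
import Pool.Agent.Y57.AK.Cantor
import Pool.Agent.Y57.AK.Final

set_option autoImplicit false

open Finset

namespace Pool.Agent.Y57.AK

theorem cantor2 (q : ℕ) (hq : 2 ≤ q) (ε : ℝ) (hε : 0 < ε) (hε1 : ε < 1) :
    ∃ k Λ : ℕ, ∀ (H M : ℕ) (R : ℕ → Finset ℕ), 1 ≤ H → Λ * H < M →
      (∀ i, 2 ≤ (R i).card ∧ (R i).card ≤ q ∧ ∀ r ∈ R i, r ≤ H) →
      ∀ B : Set ℝ, (∀ ρ ∈ Diff M R, ∃ a : ℝ, ∀ j : ℕ, j < k → a + j * ρ ∈ B) →
      (∀ (m : ℕ) (P : Finset ℝ), (B ⊆ ⋃ x ∈ P, Metric.ball x (((M : ℝ) ^ m)⁻¹)) →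
        (((∏ i ∈ range m, (R i).card : ℕ)) : ℝ) ^ (1 - ε) ≤ 3 * (P.card : ℝ)) ∧
      ((∀ i, (R i).card = q) → ∀ δ : ℝ, 0 < δ → δ < 1 → ∀ P : Finset ℝ,
        (B ⊆ ⋃ x ∈ P, Metric.ball x δ) →
        δ ^ (-((1 - ε) * (Real.log q / Real.log M))) ≤ 3 * q * (P.card : ℝ)) := by
  obtain ⟨k, Λ, h⟩ := cantor h_INTG2 q (by omega) ε hε
  refine ⟨k, Λ + 1, fun H M R hH hM hR B hB => ?_⟩
  have hM' : Λ * H < M := by nlinarith
  have hM2 : 1 < M := by nlinarith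
  have h1 := h H M R hH hM' hR B hB
  refine ⟨h1, fun hRq δ hδ hδ1 P hP => ?_⟩
  have hMr : (1 : ℝ) < M := by exact_mod_cast hM2
  have hMr0 : (0 : ℝ) < M := by linarith
  have hqr : (2 : ℝ) ≤ q := by exact_mod_cast hq
  have hq0 : (0 : ℝ) < q := by linarith
  obtain ⟨m, hm1, hm2⟩ := exists_nat_pow_near (x := δ⁻¹) (y := (M : ℝ))
    ((one_le_inv₀ hδ).2 hδ1.le) hMr
  have hcov : B ⊆ ⋃ x ∈ P, Metric.ball x (((M : ℝ) ^ m)⁻¹) := by
    refine hP.trans (Set.iUnion₂_mono fun x _ => Metric.ball_subset_ball ?_)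
    rw [← inv_inv δ]
    exact inv_anti₀ (by positivity) hm1
  have h2 := h1 m P hcov
  have h3 : (((∏ i ∈ range m, (R i).card : ℕ)) : ℝ) = (q : ℝ) ^ m := by
    simp only [hRq, Finset.prod_const, Finset.card_range]
    push_cast
    rfl
  rw [h3] at h2
  have hlM : 0 < Real.log M := Real.log_pos hMr
  have hlq : 0 < Real.log q := Real.log_pos (by linarith)
  have hs : 0 < (1 - ε) * (Real.log q / Real.log M) := by
    have : 0 < 1 - ε := by linarith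
    positivity
  calc δ ^ (-((1 - ε) * (Real.log q / Real.log M)))
      = (δ⁻¹) ^ ((1 - ε) * (Real.log q / Real.log M)) := by
        rw [Real.rpow_neg hδ.le, Real.inv_rpow hδ.le]
    _ ≤ ((M : ℝ) ^ (m + 1)) ^ ((1 - ε) * (Real.log q / Real.log M)) :=
        Real.rpow_le_rpow (by positivity) hm2.le hs.le
    _ = (q : ℝ) ^ (((m : ℝ) + 1) * (1 - ε)) := by
        rw [Real.rpow_def_of_pos (by positivity), Real.rpow_def_of_pos hq0, Real.log_pow]
        congr 1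
        push_cast
        field_simp
    _ = ((q : ℝ) ^ m) ^ (1 - ε) * (q : ℝ) ^ (1 - ε) := by
        rw [← Real.rpow_natCast, ← Real.rpow_mul hq0.le, ← Real.rpow_add hq0]
        congr 1
        ring
    _ ≤ (3 * (P.card : ℝ)) * q := by
        apply mul_le_mul h2 _ (by positivity) (by positivity)
        calc (q : ℝ) ^ (1 - ε) ≤ (q : ℝ) ^ (1 : ℝ) :=
              Real.rpow_le_rpow_of_exponent_le (by linarith) (by linarith)
          _ = q := Real.rpow_one _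
    _ = 3 * q * (P.card : ℝ) := by ring

end Pool.Agent.Y57.AK
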