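import Mathlib
import Pool.Agent.Y57.AK.Fin3
import Pool.Agent.Y57.AK.Cantor

set_option autoImplicit false

open Finset

namespace Pool.Agent.Y57.AK

/-- the main inequality for integers, in the form needed for other applications -/
theorem core_eps (hI : S_INTG3) (hE : S_EPS) (hL : S_LOSS) (κ : ℕ) (c δ : ℝ) (hc : 0 < c)
    (hδ0 : 0 < δ) :
    ∃ k Λ : ℕ, 1 ≤ Λ ∧ ∀ (n w H W : ℕ) (g : Fin n → ℤ)
      (T : Finset (Fin n → ℕ)), 1 ≤ H → w ≤ κ * n → Dissoc (Λ * H) g →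
      (∀ r ∈ T, (∀ i, r i ≤ H) ∧ ∑ i, r i ≤ H * w) →
      Interp w (T.image fun r => fun i => (r i : ℚ)) →
      ∀ (D : Finset ℤ) (y : ℤ → ℤ), (∀ d ∈ D, InSet g T d) →
      (((n + w).choose w : ℕ) : ℝ) ^ c ≤ (D.card : ℝ) →
      (∀ j ≤ k, (D.image fun d => y d + (j : ℤ) * d).card ≤ W) →
      (D.card : ℝ) ≤ (W : ℝ) * (D.card : ℝ) ^ (2 * δ) := by
  classical
  obtain ⟨k, hk⟩ := hE κ c δ hc hδ0
  set lam : ℝ := Real.log (1 + 1 / ((κ : ℝ) + 1)) with hlam
  have hlam0 : 0 < lam := by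
    apply Real.log_pos
    have : (0 : ℝ) < 1 / ((κ : ℝ) + 1) := by positivity
    linarith
  obtain ⟨m, hm⟩ := exists_nat_gt (3 * (k : ℝ) / (δ * c * lam))
  set Λ₁ : ℕ := m + 2 * k + 1 with hΛ₁
  refine ⟨k, 2 * Λ₁, by omega, ?_⟩
  intro n w H W g T hH hw hg hT hInt D y hA hC hW
  set a : ℝ := (D.card : ℝ) with ha
  have ha1 := one_le_of_choose n w c _ hc hC
  have ha0 : 0 < a := by linarith
  have hlog := log_ge κ n w hw c a hc hC
  have hloga : 0 ≤ Real.log a := Real.log_nonneg ha1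
  have hH0 : (0 : ℝ) < H := by exact_mod_cast hH
  -- coefficients
  have hch : ∀ d : ℤ, ∃ r : Fin n → ℕ, d ∈ D → r ∈ T ∧ d = ∑ i, (r i : ℤ) * g i := by
    intro d
    by_cases hd : d ∈ D
    · obtain ⟨r, hr, hrd⟩ := hA d hd
      exact ⟨r, fun _ => ⟨hr, hrd⟩⟩
    · exact ⟨0, fun h => absurd h hd⟩
  choose R hR using hch
  set L : ℕ := Λ₁ * H with hLdef
  have hL1 : 1 ≤ L := Nat.mul_pos (by omega) hH
  have hL0 : (0 : ℝ) < L := by exact_mod_cast hL1
  have h2L : Dissoc (2 * L) g := by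
    rw [hLdef, ← mul_assoc]
    exact hg
  have hkR : ∀ d ∈ D, ∀ i, 2 * (k * R d i) ≤ L ∧ k * R d i < L := by
    intro d hd i
    have h1 : R d i ≤ H := (hT _ (hR d hd).1).1 i
    have h2 : k * R d i ≤ k * H := Nat.mul_le_mul_left k h1
    have h3 : 2 * (k * H) + H ≤ L := by
      rw [hLdef, hΛ₁]
      nlinarith [Nat.zero_le (m * H)]
    constructor <;> omega
  have hτ : ∀ d ∈ D, a ^ (-δ) * ∏ i, ((L : ℝ) + k * R d i) ≤ ∏ i, ((L : ℝ) - k * R d i) := by
    intro d hd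
    refine le_trans ?_ (hL n k L (R d) hL1 fun i => (hkR d hd i).1)
    apply mul_le_mul_of_nonneg_right
    · rw [Real.rpow_def_of_pos ha0]
      apply Real.exp_le_exp.2
      have h1 : (∑ i, (R d i : ℝ)) ≤ H * w := by
        have := (hT _ (hR d hd).1).2
        exact_mod_cast this
      have h2 : 3 * (k : ℝ) * (∑ i, (R d i : ℝ)) / L ≤ δ * Real.log a := by
        rw [div_le_iff₀ hL0]
        have h3 : 3 * (k : ℝ) ≤ (Λ₁ : ℝ) * (δ * c * lam) := by
          rw [div_lt_iff₀ (by positivity)] at hm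
          have h4 : (m : ℝ) ≤ Λ₁ := by
            rw [hΛ₁]
            push_cast
            nlinarith [Nat.cast_nonneg (α := ℝ) k]
          have h5 : (m : ℝ) * (δ * c * lam) ≤ (Λ₁ : ℝ) * (δ * c * lam) :=
            mul_le_mul_of_nonneg_right h4 (by positivity)
          linarith
        calc 3 * (k : ℝ) * (∑ i, (R d i : ℝ)) ≤ 3 * (k : ℝ) * (H * w) :=
              mul_le_mul_of_nonneg_left h1 (by positivity)
          _ ≤ ((Λ₁ : ℝ) * (δ * c * lam)) * (H * w) :=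
              mul_le_mul_of_nonneg_right h3 (by positivity)
          _ = δ * (c * (w * lam)) * (Λ₁ * H) := by ring
          _ ≤ δ * Real.log a * (Λ₁ * H) := by
              apply mul_le_mul_of_nonneg_right _ (by positivity)
              exact mul_le_mul_of_nonneg_left hlog hδ0.le
          _ = δ * Real.log a * L := by
              rw [hLdef]
              push_cast
              ring
      nlinarith
    · exact Finset.prod_nonneg fun i _ => by positivity
  have hIntD : Interp w (D.image fun d => fun i => (R d i : ℚ)) := by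
    intro u
    obtain ⟨f, hf1, hf2⟩ := hInt u
    refine ⟨f, hf1, fun e he => hf2 e ?_⟩
    obtain ⟨d, hd, rfl⟩ := Finset.mem_image.1 he
    exact Finset.mem_image.2 ⟨R d, (hR d hd).1, rfl⟩
  have hmain := hI n k L w W (a ^ (-δ)) g D R y (Real.rpow_nonneg ha0.le _)
    (fun d hd i => (hkR d hd i).2) h2L (fun d hd => (hR d hd).2) hτ hIntD hW
  have hfin := hk k le_rfl n w hw a ((W : ℝ) * a ^ δ) ha1
    (mul_nonneg (Nat.cast_nonneg _) (Real.rpow_nonneg ha0.le _)) hC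
    (by
      intro x hx hx1
      have h1 := hmain x hx hx1
      rw [← ha] at h1
      have h2 : a ^ (k + 1) = (a ^ (-δ) * a) ^ (k + 1) * (a ^ δ) ^ (k + 1) := by
        rw [← mul_pow]
        congr 1
        rw [mul_right_comm, ← Real.rpow_add ha0]
        simp
      calc a ^ (k + 1) * x ^ w = ((a ^ (-δ) * a) ^ (k + 1) * x ^ w) * (a ^ δ) ^ (k + 1) := by
            rw [h2]
            ring
        _ ≤ ((W : ℝ) ^ (k + 1) * (1 + x) ^ ((k + 1) * n + w)) *
              (a ^ δ) ^ (k + 1) :=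
            mul_le_mul_of_nonneg_right h1 (pow_nonneg (Real.rpow_nonneg ha0.le _) _)
        _ = ((W : ℝ) * a ^ δ) ^ (k + 1) * (1 + x) ^ ((k + 1) * n + w) := by
            rw [mul_pow]
            ring)
  calc a ≤ (W : ℝ) * a ^ δ * a ^ δ := hfin
    _ = (W : ℝ) * a ^ (2 * δ) := by
        rw [mul_assoc, ← Real.rpow_add ha0]
        congr 2
        ring

/-- coverings at one scale: a set of digit vectors which is rich for polynomials -/
theorem scale (hI : S_INTG3) (hE : S_EPS) (hL : S_LOSS) (κ : ℕ) (c ε : ℝ) (hc : 0 < c)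
    (hε : 0 < ε) :
    ∃ k Λ : ℕ, ∀ (m w H M : ℕ) (T : Finset (Fin m → ℕ)), 1 ≤ H → w ≤ κ * m → Λ * H < M →
      (∀ r ∈ T, (∀ i, r i ≤ H) ∧ ∑ i, r i ≤ H * w) →
      Interp w (T.image fun r => fun i => (r i : ℚ)) →
      (((m + w).choose w : ℕ) : ℝ) ^ c ≤ (T.card : ℝ) →
      ∀ B : Set ℝ, (∀ r ∈ T, ∃ a : ℝ, ∀ j : ℕ, j < k →
        a + j * ∑ i : Fin m, (r i : ℝ) / (M : ℝ) ^ ((i : ℕ) + 1) ∈ B) →
      ∀ P : Finset ℝ, (B ⊆ ⋃ x ∈ P, Metric.ball x (((M : ℝ) ^ m)⁻¹)) →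
      (T.card : ℝ) ^ (1 - ε) ≤ 3 * (P.card : ℝ) := by
  classical
  obtain ⟨k, Λ, hΛ1, hcore⟩ := core_eps hI hE hL κ c (ε / 2) hc (by positivity)
  refine ⟨k + 1, Λ, ?_⟩
  intro m w H M T hH hw hM hT hInt hC B hB P hP
  have hM0 : 0 < M := by omega
  have hMr : (0 : ℝ) < M := by exact_mod_cast hM0
  have hMm : (0 : ℝ) < (M : ℝ) ^ m := pow_pos hMr m
  set g : Fin m → ℤ := fun i => (M : ℤ) ^ (m - 1 - (i : ℕ)) with hgdef
  have hg : Dissoc (Λ * H) g := dissoc_rev M _ hM m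
  set F : (Fin m → ℕ) → ℤ := fun r => ∑ i, (r i : ℤ) * g i with hF
  set D : Finset ℤ := T.image F with hD
  have hinj : Set.InjOn F (T : Set (Fin m → ℕ)) := by
    intro r hr r' hr' h
    have h1 := hg (fun i => (r i : ℤ) - r' i) (by
      intro i
      have h2 := (hT r hr).1 i
      have h3 := (hT r' hr').1 i
      have h4 : H ≤ Λ * H := Nat.le_mul_of_pos_left H hΛ1
      rw [abs_le]
      constructor <;> push_cast <;> omega) (by
      have : F r = F r' := h
      rw [hF] at this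
      simp only at this
      rw [← sub_eq_zero, ← Finset.sum_sub_distrib] at this
      rw [← this]
      refine Finset.sum_congr rfl fun i _ => ?_
      ring)
    funext i
    have h5 := congrFun h1 i
    simp only [Pi.zero_apply] at h5
    omega
  have hcardD : D.card = T.card := by
    rw [hD, Finset.card_image_of_injOn hinj]
  have hval : ∀ r : Fin m → ℕ, ((F r : ℤ) : ℝ) / (M : ℝ) ^ m =
      ∑ i : Fin m, (r i : ℝ) / (M : ℝ) ^ ((i : ℕ) + 1) := by
    intro r
    rw [hF]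
    simp only
    push_cast
    rw [Finset.sum_div]
    refine Finset.sum_congr rfl fun i _ => ?_
    rw [hgdef]
    simp only
    push_cast
    have hi := i.2
    rw [div_eq_div_iff hMm.ne' (pow_pos hMr _).ne', mul_assoc, ← pow_add]
    congr 2
    omega
  have hch : ∀ d : ℤ, ∃ a : ℝ, d ∈ D → ∀ j : ℕ, j < k + 1 →
      a + j * ((d : ℝ) / (M : ℝ) ^ m) ∈ B := by
    intro d
    by_cases hd : d ∈ D
    · obtain ⟨r, hr, rfl⟩ := Finset.mem_image.1 hd
      obtain ⟨a, ha⟩ := hB r hr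
      refine ⟨a, fun _ j hj => ?_⟩
      rw [hval]
      exact ha j hj
    · exact ⟨0, fun h => absurd h hd⟩
  choose a ha using hch
  have hmain := hcore m w H (3 * P.card) g T hH hw hg hT hInt D
    (fun d => ⌊(M : ℝ) ^ m * a d⌋) (by
      intro d hd
      obtain ⟨r, hr, rfl⟩ := Finset.mem_image.1 hd
      exact ⟨r, hr, rfl⟩) (by rw [hcardD]; exact hC) (by
      intro j hj
      have hsub : (D.image fun d => ⌊(M : ℝ) ^ m * a d⌋ + (j : ℤ) * d) ⊆
          P.biUnion fun x => {⌊(M : ℝ) ^ m * x⌋ - 1, ⌊(M : ℝ) ^ m * x⌋,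
            ⌊(M : ℝ) ^ m * x⌋ + 1} := by
        intro z hz
        obtain ⟨d, hd, rfl⟩ := Finset.mem_image.1 hz
        have hb := hP (ha d hd j (by omega))
        simp only [Set.mem_iUnion] at hb
        obtain ⟨x, hx, hxb⟩ := hb
        rw [Metric.mem_ball, Real.dist_eq] at hxb
        have h1 : ⌊(M : ℝ) ^ m * (a d + j * ((d : ℝ) / (M : ℝ) ^ m))⌋ =
            ⌊(M : ℝ) ^ m * a d⌋ + (j : ℤ) * d := by
          have h2 : (M : ℝ) ^ m * (a d + j * ((d : ℝ) / (M : ℝ) ^ m)) =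
              (M : ℝ) ^ m * a d + ((((j : ℤ) * d : ℤ)) : ℝ) := by
            push_cast
            field_simp
          rw [h2, Int.floor_add_intCast]
        have h3 : |(M : ℝ) ^ m * (a d + j * ((d : ℝ) / (M : ℝ) ^ m)) - (M : ℝ) ^ m * x| < 1 := by
          rw [← mul_sub, abs_mul, abs_of_pos hMm]
          calc (M : ℝ) ^ m * |a d + j * ((d : ℝ) / (M : ℝ) ^ m) - x|
              < (M : ℝ) ^ m * ((M : ℝ) ^ m)⁻¹ := mul_lt_mul_of_pos_left hxb hMm
            _ = 1 := mul_inv_cancel₀ hMm.ne'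
        have h4 := floor_near _ _ h3
        rw [h1] at h4
        refine Finset.mem_biUnion.2 ⟨x, hx, ?_⟩
        simp only [Finset.mem_insert, Finset.mem_singleton]
        exact h4
      calc (D.image fun d => ⌊(M : ℝ) ^ m * a d⌋ + (j : ℤ) * d).card
          ≤ (P.biUnion fun x => ({⌊(M : ℝ) ^ m * x⌋ - 1, ⌊(M : ℝ) ^ m * x⌋,
            ⌊(M : ℝ) ^ m * x⌋ + 1} : Finset ℤ)).card := Finset.card_le_card hsub
        _ ≤ ∑ x ∈ P, ({⌊(M : ℝ) ^ m * x⌋ - 1, ⌊(M : ℝ) ^ m * x⌋,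
            ⌊(M : ℝ) ^ m * x⌋ + 1} : Finset ℤ).card := Finset.card_biUnion_le
        _ ≤ ∑ _x ∈ P, 3 := Finset.sum_le_sum fun x _ => Finset.card_le_three
        _ = 3 * P.card := by rw [Finset.sum_const, smul_eq_mul, mul_comm])
  rw [hcardD] at hmain
  have hA1 := one_le_of_choose m w c _ hc hC
  set A : ℝ := (T.card : ℝ) with hA
  have hA0 : 0 < A := by linarith
  have h13 : A ≤ (3 * (P.card : ℝ)) * A ^ ε := by
    have h : (2 : ℝ) * (ε / 2) = ε := by ring
    rw [h] at hmain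
    push_cast at hmain
    exact hmain
  have h14 : A = A ^ (1 - ε) * A ^ ε := by
    rw [← Real.rpow_add hA0]
    simp
  have h15 : 0 < A ^ ε := Real.rpow_pos_of_pos hA0 _
  have h16 : A ^ (1 - ε) * A ^ ε ≤ (3 * (P.card : ℝ)) * A ^ ε := by
    rw [← h14]
    exact h13
  exact le_of_mul_le_mul_right h16 h15

end Pool.Agent.Y57.AK
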