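import Mathlib
import Pool.Agent.Y57.AK.Scale
import Pool.Agent.Y57.AK.Cantor2

set_option autoImplicit false

open Finset

namespace Pool.Agent.Y57.AK

theorem scale2 (κ : ℕ) (c ε : ℝ) (hc : 0 < c) (hε : 0 < ε) :
    ∃ k Λ : ℕ, ∀ (m w H M : ℕ) (T : Finset (Fin m → ℕ)), 1 ≤ H → w ≤ κ * m → Λ * H < M →
      (∀ r ∈ T, (∀ i, r i ≤ H) ∧ ∑ i, r i ≤ H * w) →
      Interp w (T.image fun r => fun i => (r i : ℚ)) →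
      (((m + w).choose w : ℕ) : ℝ) ^ c ≤ (T.card : ℝ) →
      ∀ B : Set ℝ, (∀ r ∈ T, ∃ a : ℝ, ∀ j : ℕ, j < k →
        a + j * ∑ i : Fin m, (r i : ℝ) / (M : ℝ) ^ ((i : ℕ) + 1) ∈ B) →
      ∀ P : Finset ℝ, (B ⊆ ⋃ x ∈ P, Metric.ball x (((M : ℝ) ^ m)⁻¹)) →
      (T.card : ℝ) ^ (1 - ε) ≤ 3 * (P.card : ℝ) :=
  scale h_INTG3 h_EPS h_LOSS κ c ε hc hε

end Pool.Agent.Y57.AK
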