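import Mathlib
import Pool.Agent.Y57.AK.Stm3
import Pool.Agent.Y383.AK.TEN

set_option autoImplicit false

open Finset

namespace Pool.Agent.Y57.AK

open Pool.Agent.Y383.AK in
lemma interp_pow {ι : Type} [Fintype ι] [DecidableEq ι] (w r : ℕ) (D : Finset (ι → ℚ))
    (h : Interp w D) :
    Interp (r * w) ((Fintype.piFinset fun _ : Fin r => D).image unc) := by
  classical
  intro u
  have hch : ∀ d : ι → ℚ, ∃ f : MvPolynomial ι ℚ, f.totalDegree ≤ w ∧
      ∀ e ∈ D, MvPolynomial.eval e f = if e = d then 1 else 0 := fun d =>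
    h (fun e => if e = d then 1 else 0)
  choose F hF1 hF2 using hch
  refine ⟨∑ c ∈ Fintype.piFinset (fun _ : Fin r => D), MvPolynomial.C (u (unc c)) *
    ∏ a : Fin r, MvPolynomial.rename (fun i : ι => (a, i)) (F (c a)), ?_, ?_⟩
  · refine MvPolynomial.totalDegree_finsetSum_le fun c _ => ?_
    refine (MvPolynomial.totalDegree_mul _ _).trans ?_
    rw [MvPolynomial.totalDegree_C, zero_add]
    refine (MvPolynomial.totalDegree_finset_prod _ _).trans ?_
    calc ∑ a : Fin r, (MvPolynomial.rename (fun i : ι => (a, i)) (F (c a))).totalDegree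
        ≤ ∑ _a : Fin r, w := Finset.sum_le_sum fun a _ =>
          (MvPolynomial.totalDegree_rename_le _ _).trans (hF1 _)
      _ = r * w := by simp
  · intro e he
    obtain ⟨c', hc', rfl⟩ := Finset.mem_image.1 he
    have hc'D := Fintype.mem_piFinset.1 hc'
    rw [map_sum]
    rw [Finset.sum_eq_single c']
    · rw [map_mul, MvPolynomial.eval_C, map_prod]
      have h1 : ∏ a : Fin r, MvPolynomial.eval (unc c')
          (MvPolynomial.rename (fun i : ι => (a, i)) (F (c' a))) = 1 := by
        refine Finset.prod_eq_one fun a _ => ?_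
        rw [MvPolynomial.eval_rename]
        have h2 : (unc c' ∘ fun i : ι => (a, i)) = c' a := rfl
        rw [h2, hF2 _ _ (hc'D a), if_pos rfl]
      rw [h1, mul_one]
    · intro c hc hne
      rw [map_mul, map_prod]
      obtain ⟨a, ha⟩ : ∃ a, c a ≠ c' a := by
        by_contra hcon
        push Not at hcon
        exact hne (funext hcon)
      have h1 : ∏ a : Fin r, MvPolynomial.eval (unc c')
          (MvPolynomial.rename (fun i : ι => (a, i)) (F (c a))) = 0 := by
        refine Finset.prod_eq_zero (Finset.mem_univ a) ?_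
        rw [MvPolynomial.eval_rename]
        have h2 : (unc c' ∘ fun i : ι => (a, i)) = c' a := rfl
        rw [h2, hF2 _ _ (hc'D a), if_neg (fun h => ha h.symm)]
      rw [h1, mul_zero]
    · intro hcon
      exact absurd hc' hcon

lemma root_real {X Y K : ℝ} (hY : 0 ≤ Y) (hX : 0 ≤ X) (h : ∀ r : ℕ, 1 ≤ r → X ^ r ≤ K * Y ^ r) :
    X ≤ Y := by
  by_contra hXY
  push Not at hXY
  rcases hY.eq_or_lt with h0 | hY0
  · have := h 1 le_rfl
    rw [← h0] at this
    simp only [pow_one, mul_zero] at this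
    linarith
  · have h1 : 1 < X / Y := (one_lt_div hY0).2 hXY
    obtain ⟨r, hr⟩ := pow_unbounded_of_one_lt K h1
    have h2 := h (r + 1) (by omega)
    have h3 : (X / Y) ^ (r + 1) ≤ K := by
      rw [div_pow, div_le_iff₀ (pow_pos hY0 _)]
      exact h2
    have h4 : (X / Y) ^ r ≤ (X / Y) ^ (r + 1) := pow_le_pow_right₀ h1.le (by omega)
    linarith

lemma choose_mul_pow_le (a b : ℕ) (x : ℝ) (hx : 0 < x) :
    ((a + b).choose a : ℝ) * x ^ b ≤ (1 + x) ^ (a + b) := by
  have h1 : (1 + x) ^ (a + b) = ∑ m ∈ range (a + b + 1), 1 ^ m * x ^ (a + b - m) *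
      ((a + b).choose m : ℝ) := add_pow 1 x (a + b)
  rw [h1]
  have h2 : ((a + b).choose a : ℝ) * x ^ b =
      (1 : ℝ) ^ a * x ^ (a + b - a) * ((a + b).choose a : ℝ) := by
    rw [Nat.add_sub_cancel_left]
    ring
  rw [h2]
  exact Finset.single_le_sum (f := fun m => (1 : ℝ) ^ m * x ^ (a + b - m) *
    ((a + b).choose m : ℝ)) (fun m _ => by positivity) (Finset.mem_range.2 (by omega))

open Pool.Agent.Y383.AK in
theorem t_TEN1 : S_DIM1 → S_TEN1 := by
  classical
  intro hL ι _ _ w W D v J hI hJ hW x hx hx1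
  set k := J.card with hk
  set N := Fintype.card ι with hN
  have hk1 : 1 ≤ k := Finset.card_pos.2 hJ
  have hmain : ∀ r : ℕ, 1 ≤ r →
      ((D.card : ℝ) ^ k * x ^ w) ^ r ≤
        (k : ℝ) ^ k * ((W : ℝ) ^ k * (1 + x) ^ (k * N + w)) ^ r := by
    intro r _
    set D' : Finset (Fin r × ι → ℚ) := (Fintype.piFinset fun _ : Fin r => D).image unc with hD'
    set v' : (Fin r × ι → ℚ) → (Fin r × ι → ℚ) := fun w p => v (fun i => w (p.1, i)) p.2 with hv'
    obtain ⟨b, hb⟩ : ∃ b, b = (r * w) / k := ⟨_, rfl⟩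
    have hlt : r * w < k * (b + 1) := by
      rw [hb]
      exact Nat.lt_mul_div_succ _ hk1
    have h1 := hL (Fin r × ι) (r * w) (b + 1) D' v' J (interp_pow w r D hI) (by omega) hlt
    have h2 : D'.card = D.card ^ r := by
      rw [hD', card_image_of_injective _ unc_inj, Fintype.card_piFinset, prod_const, card_univ,
        Fintype.card_fin]
    have h3 : ∀ s ∈ J, (D'.image fun d i => d i + s * v' d i).card ≤ W ^ r := by
      intro s hs
      have h4 : (D'.image fun d i => d i + s * v' d i) ⊆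
          (Fintype.piFinset fun _ : Fin r => D.image fun d i => d i + s * v d i).image unc := by
        intro x hx
        obtain ⟨d, hd, rfl⟩ := mem_image.1 hx
        obtain ⟨c, hc, rfl⟩ := mem_image.1 hd
        refine mem_image.2 ⟨fun j i => c j i + s * v (c j) i, ?_, rfl⟩
        exact Fintype.mem_piFinset.2 fun j =>
          mem_image.2 ⟨c j, Fintype.mem_piFinset.1 hc j, rfl⟩
      refine (card_le_card h4).trans (card_image_le.trans ?_)
      rw [Fintype.card_piFinset, prod_const, card_univ, Fintype.card_fin]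
      exact Nat.pow_le_pow_left (hW s hs) r
    have h5 : ∑ s ∈ J, (D'.image fun d i => d i + s * v' d i).card ≤ k * W ^ r := by
      refine (sum_le_card_nsmul _ _ _ h3).trans (le_of_eq ?_)
      rw [smul_eq_mul]
    have h6 := h1.trans (Nat.mul_le_mul_right _ h5)
    rw [h2, Fintype.card_prod, Fintype.card_fin, ← hN,
      show r * N + (b + 1) - 1 = r * N + b by omega] at h6
    have h7 : (D.card : ℝ) ^ r ≤ (k : ℝ) * (W : ℝ) ^ r * (((r * N + b).choose (r * N) : ℕ) : ℝ) := by
      exact_mod_cast h6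
    have h8 : (D.card : ℝ) ^ r * x ^ b ≤ (k : ℝ) * (W : ℝ) ^ r * (1 + x) ^ (r * N + b) := by
      calc (D.card : ℝ) ^ r * x ^ b ≤ ((k : ℝ) * (W : ℝ) ^ r *
            (((r * N + b).choose (r * N) : ℕ) : ℝ)) * x ^ b :=
            mul_le_mul_of_nonneg_right h7 (by positivity)
        _ = ((k : ℝ) * (W : ℝ) ^ r) * ((((r * N + b).choose (r * N) : ℕ) : ℝ) * x ^ b) := by ring
        _ ≤ _ := mul_le_mul_of_nonneg_left (choose_mul_pow_le _ _ x hx) (by positivity)
    have h9 : ((D.card : ℝ) ^ r * x ^ b) ^ k ≤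
        ((k : ℝ) * (W : ℝ) ^ r * (1 + x) ^ (r * N + b)) ^ k :=
      pow_le_pow_left₀ (by positivity) h8 k
    have hbk : b * k ≤ r * w := by
      rw [hb]
      exact Nat.div_mul_le_self _ _
    have h10 : x ^ (r * w) ≤ x ^ (b * k) := pow_le_pow_of_le_one hx.le hx1 hbk
    have h11 : (1 + x) ^ (b * k) ≤ (1 + x) ^ (r * w) :=
      pow_le_pow_right₀ (by linarith) hbk
    calc ((D.card : ℝ) ^ k * x ^ w) ^ r = (D.card : ℝ) ^ (k * r) * x ^ (r * w) := by
          rw [mul_pow, ← pow_mul, ← pow_mul, mul_comm w r]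
      _ ≤ (D.card : ℝ) ^ (k * r) * x ^ (b * k) :=
          mul_le_mul_of_nonneg_left h10 (by positivity)
      _ = ((D.card : ℝ) ^ r * x ^ b) ^ k := by
          rw [mul_pow, ← pow_mul, ← pow_mul, mul_comm k r]
      _ ≤ ((k : ℝ) * (W : ℝ) ^ r * (1 + x) ^ (r * N + b)) ^ k := h9
      _ = (k : ℝ) ^ k * ((W : ℝ) ^ (r * k) * ((1 + x) ^ (r * N * k) * (1 + x) ^ (b * k))) := by
          rw [mul_pow, mul_pow, ← pow_mul, ← pow_mul, ← pow_add, add_mul]
          ring
      _ ≤ (k : ℝ) ^ k * ((W : ℝ) ^ (r * k) * ((1 + x) ^ (r * N * k) * (1 + x) ^ (r * w))) := by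
          apply mul_le_mul_of_nonneg_left _ (by positivity)
          apply mul_le_mul_of_nonneg_left _ (by positivity)
          exact mul_le_mul_of_nonneg_left h11 (by positivity)
      _ = (k : ℝ) ^ k * ((W : ℝ) ^ k * (1 + x) ^ (k * N + w)) ^ r := by
          rw [mul_pow, ← pow_mul, ← pow_mul, ← pow_add]
          ring_nf
  exact root_real (by positivity) (by positivity) hmain

end Pool.Agent.Y57.AK
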